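import Mathlib

-- part Pool.Agent.Lib.MP_606be1_nt.CF
section

/-! Elementary theory of the convergents of an irrational real number. -/

namespace Pool.Agent.Lib.MP_606be1_nt

open Int

/-- numerator and denominator of the `n`-th convergent by the front recursion -/
noncomputable def PQ : ℝ → ℕ → ℤ × ℤ
  | ξ, 0 => (⌊ξ⌋, 1)
  | ξ, n + 1 => (⌊ξ⌋ * (PQ (fract ξ)⁻¹ n).1 + (PQ (fract ξ)⁻¹ n).2, (PQ (fract ξ)⁻¹ n).1)

noncomputable def P (ξ : ℝ) (n : ℕ) : ℤ := (PQ ξ n).1
noncomputable def Q (ξ : ℝ) (n : ℕ) : ℤ := (PQ ξ n).2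

@[simp] lemma P_zero (ξ : ℝ) : P ξ 0 = ⌊ξ⌋ := rfl
@[simp] lemma Q_zero (ξ : ℝ) : Q ξ 0 = 1 := rfl
lemma P_succ (ξ : ℝ) (n : ℕ) : P ξ (n + 1) = ⌊ξ⌋ * P (fract ξ)⁻¹ n + Q (fract ξ)⁻¹ n := rfl
lemma Q_succ (ξ : ℝ) (n : ℕ) : Q ξ (n + 1) = P (fract ξ)⁻¹ n := rfl

lemma fract_pos_of_irr {ξ : ℝ} (h : Irrational ξ) : 0 < fract ξ := by
  rw [fract_pos]
  exact h.ne_int _

lemma irr_next {ξ : ℝ} (h : Irrational ξ) : Irrational (fract ξ)⁻¹ := by
  have : Irrational (fract ξ) := by
    unfold Int.fract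
    exact h.sub_intCast _
  exact this.inv

lemma one_lt_next {ξ : ℝ} (h : Irrational ξ) : 1 < (fract ξ)⁻¹ :=
  (one_lt_inv₀ (fract_pos_of_irr h)).2 (fract_lt_one ξ)

lemma pos_aux (n : ℕ) : ∀ ξ : ℝ, Irrational ξ →
    1 ≤ Q ξ n ∧ (0 < ξ → 0 ≤ P ξ n) ∧ (1 < ξ → 1 ≤ P ξ n) := by
  induction n with
  | zero =>
    intro ξ _
    refine ⟨le_rfl, fun h => ?_, fun h => ?_⟩
    · simpa using floor_nonneg.2 h.le
    · simpa using (le_floor (z := 1)).2 (by simpa using h.le)
  | succ n ih =>
    intro ξ h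
    obtain ⟨h1, -, h3⟩ := ih _ (irr_next h)
    have h3 := h3 (one_lt_next h)
    refine ⟨by rw [Q_succ]; exact h3, fun h0 => ?_, fun h0 => ?_⟩
    · rw [P_succ]
      have : 0 ≤ ⌊ξ⌋ := floor_nonneg.2 h0.le
      positivity
    · rw [P_succ]
      have : 0 ≤ ⌊ξ⌋ := floor_nonneg.2 (by linarith)
      have : 0 ≤ ⌊ξ⌋ * P (fract ξ)⁻¹ n := by positivity
      linarith

lemma one_le_Q {ξ : ℝ} (h : Irrational ξ) (n : ℕ) : 1 ≤ Q ξ n := (pos_aux n ξ h).1
lemma P_nonneg {ξ : ℝ} (h : Irrational ξ) (h0 : 0 < ξ) (n : ℕ) : 0 ≤ P ξ n :=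
  (pos_aux n ξ h).2.1 h0

lemma det (n : ℕ) : ∀ ξ : ℝ, P ξ (n + 1) * Q ξ n - P ξ n * Q ξ (n + 1) = (-1) ^ n := by
  induction n with
  | zero => intro ξ; simp [P_succ, Q_succ]
  | succ n ih =>
    intro ξ
    have := ih (fract ξ)⁻¹
    rw [P_succ ξ (n + 1), Q_succ ξ (n + 1), P_succ ξ n, Q_succ ξ n, pow_succ]
    linear_combination (-1) * this

lemma convergent_eq (n : ℕ) : ∀ ξ : ℝ, Irrational ξ →
    ξ.convergent n = (P ξ n : ℚ) / Q ξ n := by
  induction n with
  | zero => intro ξ _; simp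
  | succ n ih =>
    intro ξ h
    have h3 := (pos_aux n _ (irr_next h)).2.2 (one_lt_next h)
    have h1 := one_le_Q (irr_next h) n
    rw [Real.convergent_succ, ih _ (irr_next h), P_succ, Q_succ]
    have a1 : (P (fract ξ)⁻¹ n : ℚ) ≠ 0 := by exact_mod_cast (by omega : P (fract ξ)⁻¹ n ≠ 0)
    have a2 : (Q (fract ξ)⁻¹ n : ℚ) ≠ 0 := by exact_mod_cast (by omega : Q (fract ξ)⁻¹ n ≠ 0)
    push_cast
    generalize (P (fract ξ)⁻¹ n : ℚ) = A at *
    generalize (Q (fract ξ)⁻¹ n : ℚ) = B at *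
    field_simp

lemma coprime_PQ (ξ : ℝ) (n : ℕ) : IsCoprime (P ξ n) (Q ξ n) := by
  have := det n ξ
  refine ⟨-(-1) ^ n * Q ξ (n + 1), (-1) ^ n * P ξ (n + 1), ?_⟩
  have h2 : ((-1 : ℤ) ^ n) * (-1) ^ n = 1 := by rw [← mul_pow]; simp
  linear_combination (-1) ^ n * this + h2

lemma den_eq {ξ : ℝ} (h : Irrational ξ) (n : ℕ) : ((ξ.convergent n).den : ℤ) = Q ξ n := by
  rw [convergent_eq n ξ h]
  exact Rat.den_div_eq_of_coprime (by linarith [one_le_Q h n])
    (Int.isCoprime_iff_gcd_eq_one.1 (coprime_PQ ξ n))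

/-- signed error -/
noncomputable def E (ξ : ℝ) (n : ℕ) : ℝ := (-1) ^ n * (Q ξ n * ξ - P ξ n)

lemma E_succ {ξ : ℝ} (h : Irrational ξ) (n : ℕ) :
    E ξ (n + 1) = fract ξ * E (fract ξ)⁻¹ n := by
  have h0 := (fract_pos_of_irr h).ne'
  unfold E
  rw [P_succ, Q_succ, pow_succ]
  push_cast
  have : ξ = ⌊ξ⌋ + fract ξ := (floor_add_fract ξ).symm
  generalize (P (fract ξ)⁻¹ n : ℝ) = A at *
  generalize (Q (fract ξ)⁻¹ n : ℝ) = B at *
  have h1 : fract ξ * (fract ξ)⁻¹ = 1 := mul_inv_cancel₀ h0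
  linear_combination (-(-1) ^ n * A) * this - (-1) ^ n * B * h1

lemma E_zero (ξ : ℝ) : E ξ 0 = fract ξ := by simp [E]

lemma E_pos (n : ℕ) : ∀ ξ : ℝ, Irrational ξ → 0 < E ξ n := by
  induction n with
  | zero => intro ξ h; rw [E_zero]; exact fract_pos_of_irr h
  | succ n ih => intro ξ h; rw [E_succ h]; exact mul_pos (fract_pos_of_irr h) (ih _ (irr_next h))

lemma E_anti (n : ℕ) : ∀ ξ : ℝ, Irrational ξ → E ξ (n + 1) ≤ E ξ n := by
  induction n with
  | zero =>
    intro ξ h
    rw [E_succ h, E_zero, E_zero]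
    exact mul_le_of_le_one_right (fract_nonneg _) (fract_lt_one _).le
  | succ n ih =>
    intro ξ h
    rw [E_succ h, E_succ h n]
    exact mul_le_mul_of_nonneg_left (ih _ (irr_next h)) (fract_nonneg _)

lemma E_det (ξ : ℝ) (n : ℕ) : Q ξ (n + 1) * E ξ n + Q ξ n * E ξ (n + 1) = 1 := by
  have := congrArg (fun z : ℤ => (z : ℝ)) (det n ξ)
  simp only [cast_sub, cast_mul, cast_pow, cast_neg, cast_one] at this
  unfold E
  have h2 : ((-1 : ℝ) ^ n) * (-1) ^ n = 1 := by rw [← mul_pow]; simp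
  rw [pow_succ]
  linear_combination (-1) ^ n * this + h2

lemma fib_aux (n : ℕ) : ∀ ξ : ℝ, Irrational ξ →
    Q ξ n + Q ξ (n + 1) ≤ Q ξ (n + 2) ∧ (0 < ξ → P ξ n + P ξ (n + 1) ≤ P ξ (n + 2)) := by
  induction n with
  | zero =>
    intro ξ h
    have h1 : 1 ≤ ⌊(fract ξ)⁻¹⌋ := (le_floor (z := 1)).2 (by simpa using (one_lt_next h).le)
    have h2 : 1 ≤ ⌊(fract (fract ξ)⁻¹)⁻¹⌋ :=
      (le_floor (z := 1)).2 (by simpa using (one_lt_next (irr_next h)).le)
    simp only [P_succ, Q_succ, P_zero, Q_zero, zero_add]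
    refine ⟨by nlinarith, fun h0 => ?_⟩
    have h3 : 0 ≤ ⌊ξ⌋ := floor_nonneg.2 h0.le
    have h4 : 0 ≤ ⌊ξ⌋ * ⌊(fract ξ)⁻¹⌋ := by positivity
    nlinarith
  | succ n ih =>
    intro ξ h
    obtain ⟨h1, h2⟩ := ih _ (irr_next h)
    have h2 := h2 (by linarith [one_lt_next h])
    refine ⟨by rw [Q_succ ξ n, Q_succ ξ (n + 1), Q_succ ξ (n + 2)]; exact h2, fun h0 => ?_⟩
    rw [P_succ ξ n, P_succ ξ (n + 1), P_succ ξ (n + 2)]
    have h3 : 0 ≤ ⌊ξ⌋ := floor_nonneg.2 h0.le
    nlinarith

lemma Q_succ_ge {ξ : ℝ} (h : Irrational ξ) (n : ℕ) : Q ξ n ≤ Q ξ (n + 1) := by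
  cases n with
  | zero => simpa using one_le_Q h 1
  | succ n => linarith [(fib_aux n ξ h).1, one_le_Q h n]

lemma Q_mono {ξ : ℝ} (h : Irrational ξ) : Monotone (Q ξ) :=
  monotone_nat_of_le_succ (Q_succ_ge h)

lemma Q_succ_gt {ξ : ℝ} (h : Irrational ξ) (n : ℕ) : Q ξ (n + 1) < Q ξ (n + 2) := by
  linarith [(fib_aux n ξ h).1, one_le_Q h n]

lemma le_Q {ξ : ℝ} (h : Irrational ξ) (n : ℕ) : (n : ℤ) ≤ Q ξ n := by
  induction n with
  | zero => simp
  | succ n ih =>
    cases n with
    | zero => simpa using one_le_Q h 1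
    | succ n =>
      have := Q_succ_gt h n
      push_cast at ih ⊢
      linarith

lemma E_le {ξ : ℝ} (h : Irrational ξ) (n : ℕ) : Q ξ (n + 1) * E ξ n ≤ 1 := by
  have := E_det ξ n
  have h1 : (1 : ℝ) ≤ Q ξ n := by exact_mod_cast one_le_Q h n
  have := E_pos (n + 1) ξ h
  nlinarith

lemma le_E {ξ : ℝ} (h : Irrational ξ) (n : ℕ) : 1 ≤ 2 * (Q ξ (n + 1) * E ξ n) := by
  have := E_det ξ n
  have h1 : (Q ξ n : ℝ) ≤ Q ξ (n + 1) := by exact_mod_cast Q_succ_ge h n
  have h2 : (1 : ℝ) ≤ Q ξ n := by exact_mod_cast one_le_Q h n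
  have h3 := E_pos (n + 1) ξ h
  have h4 := E_anti n ξ h
  have : Q ξ n * E ξ (n + 1) ≤ Q ξ (n + 1) * E ξ n :=
    mul_le_mul h1 h4 h3.le (by linarith)
  linarith

lemma abs_err {ξ : ℝ} (h : Irrational ξ) (n : ℕ) : |Q ξ n * ξ - P ξ n| = E ξ n := by
  have := E_pos n ξ h
  rw [← abs_of_pos this]
  unfold E
  rw [abs_mul, abs_pow, abs_neg, abs_one, one_pow, one_mul]

/-- every integer pair is an integer combination of two consecutive convergents -/
lemma exists_comb (ξ : ℝ) (j : ℕ) (n m : ℤ) :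
    ∃ u v : ℤ, n = u * Q ξ j + v * Q ξ (j + 1) ∧ m = u * P ξ j + v * P ξ (j + 1) := by
  have := det j ξ
  have h2 : ((-1 : ℤ) ^ j) * (-1) ^ j = 1 := by rw [← mul_pow]; simp
  refine ⟨(-1) ^ j * (n * P ξ (j + 1) - m * Q ξ (j + 1)), (-1) ^ j * (m * Q ξ j - n * P ξ j),
    ?_, ?_⟩
  · linear_combination (-(-1) ^ j * n) * this - n * h2
  · linear_combination (-(-1) ^ j * m) * this - m * h2

/-- best approximation property together with Legendre's theorem -/
lemma best {ξ : ℝ} (h : Irrational ξ) (j : ℕ) {n m : ℤ} (h0 : 0 < n) (h1 : n < Q ξ (j + 1)) :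
    E ξ j ≤ |n * ξ - m| ∧
      (Q ξ j ≤ n → |n * ξ - m| * (2 * n) < 1 → ∃ k : ℤ, n = k * Q ξ j ∧ m = k * P ξ j) := by
  obtain ⟨u, v, hn, hm⟩ := exists_comb ξ j n m
  have q0 := one_le_Q h j
  have q1 := one_le_Q h (j + 1)
  have e0 := E_pos j ξ h
  have e1 := E_pos (j + 1) ξ h
  have key : |n * ξ - m| = |u * E ξ j - v * E ξ (j + 1)| := by
    have h2 : ((-1 : ℝ) ^ j) * (-1) ^ j = 1 := by rw [← mul_pow]; simp
    have : u * E ξ j - v * E ξ (j + 1) = (-1) ^ j * (n * ξ - m) := by
      unfold E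
      rw [hn, hm, pow_succ]
      push_cast
      ring
    rw [this, abs_mul, abs_pow, abs_neg, abs_one, one_pow, one_mul]
  have hE : E ξ j ≤ |n * ξ - m| := by
    rw [key]
    rcases lt_trichotomy u 0 with hu | hu | hu
    · have hv : 0 < v := by
        by_contra hv
        have : v * Q ξ (j + 1) ≤ 0 := mul_nonpos_of_nonpos_of_nonneg (by omega) (by omega)
        have : u * Q ξ j < 0 := mul_neg_of_neg_of_pos hu (by omega)
        omega
      have hu' : (u : ℝ) ≤ -1 := by exact_mod_cast (by omega : u ≤ -1)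
      have hv' : (0 : ℝ) < v := by exact_mod_cast hv
      rw [le_abs]
      right
      nlinarith
    · subst hu
      exfalso
      rcases le_or_gt v 0 with hv | hv
      · have : v * Q ξ (j + 1) ≤ 0 := mul_nonpos_of_nonpos_of_nonneg hv (by omega)
        omega
      · have : Q ξ (j + 1) ≤ v * Q ξ (j + 1) := by nlinarith
        omega
    · have hv : v ≤ 0 := by
        by_contra hv
        have : Q ξ (j + 1) ≤ v * Q ξ (j + 1) := by nlinarith
        have : 0 < u * Q ξ j := mul_pos hu (by omega)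
        omega
      have hu' : (1 : ℝ) ≤ u := by exact_mod_cast (by omega : 1 ≤ u)
      have hv' : (v : ℝ) ≤ 0 := by exact_mod_cast hv
      rw [le_abs]
      left
      nlinarith
  refine ⟨hE, fun h2 h3 => ?_⟩
  by_cases hv : v = 0
  · subst hv
    exact ⟨u, by simpa using hn, by simpa using hm⟩
  exfalso
  have hd := det j ξ
  have h4 : n * P ξ j - m * Q ξ j = -v * (-1) ^ j := by
    rw [hn, hm]
    linear_combination (-v) * hd
  have h5 : (1 : ℝ) ≤ |(n * P ξ j - m * Q ξ j : ℝ)| := by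
    have : (1 : ℤ) ≤ |n * P ξ j - m * Q ξ j| := by
      rw [h4, abs_mul, abs_pow, abs_neg, abs_neg, abs_one, one_pow, mul_one]
      exact Int.one_le_abs hv
    exact_mod_cast this
  have h6 : (n * P ξ j - m * Q ξ j : ℝ) = Q ξ j * (n * ξ - m) - n * (Q ξ j * ξ - P ξ j) := by ring
  have hn' : (0 : ℝ) < n := by exact_mod_cast h0
  have hq' : (0 : ℝ) < Q ξ j := by exact_mod_cast (by omega : 0 < Q ξ j)
  have h2' : (Q ξ j : ℝ) ≤ n := by exact_mod_cast h2
  have h7 : |(n * P ξ j - m * Q ξ j : ℝ)| ≤ Q ξ j * |n * ξ - m| + n * E ξ j := by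
    rw [h6]
    refine (abs_sub _ _).trans ?_
    rw [abs_mul, abs_mul, abs_err h, abs_of_pos hn', abs_of_pos hq']
  have h8 : Q ξ j * |n * ξ - m| ≤ n * |n * ξ - m| := by gcongr
  have h9 : n * E ξ j ≤ n * |n * ξ - m| := by gcongr
  linarith

lemma exists_index {ξ : ℝ} (h : Irrational ξ) {n : ℤ} (h0 : 0 < n) :
    ∃ j, Q ξ j ≤ n ∧ n < Q ξ (j + 1) := by
  classical
  have hex : ∃ j, n < Q ξ (j + 1) := ⟨n.toNat, by have := le_Q h (n.toNat + 1); omega⟩
  refine ⟨Nat.find hex, ?_, Nat.find_spec hex⟩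
  rcases hj : Nat.find hex with _ | j
  · simp only [Q_zero]; omega
  · have := Nat.find_min hex (m := j) (by omega)
    omega

/-- the convergents of a rational number are eventually that number -/
lemma convergent_rat (d : ℕ) : ∀ r : ℚ, r.den ≤ d → ∃ N, ∀ n ≥ N, (r : ℝ).convergent n = r := by
  induction d with
  | zero => intro r hr; exact absurd hr (by have := r.den_pos; omega)
  | succ d ih =>
    intro r hr
    by_cases h1 : fract r = 0
    · refine ⟨0, fun n _ => ?_⟩
      have : r = (⌊r⌋ : ℚ) := by have := floor_add_fract r; rw [h1, add_zero] at this; exact this.symm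
      rw [this]
      simp
    · have hpos : 0 < fract r := lt_of_le_of_ne (fract_nonneg r) (Ne.symm h1)
      have hden : (fract r)⁻¹.den ≤ d := by
        have e1 : (fract r)⁻¹.den = (fract r).num.natAbs := Rat.den_inv_of_ne_zero h1
        have e2 : (fract r).den = r.den := by
          unfold Int.fract
          exact Rat.sub_intCast_den r _
        have e3 : (fract r).num < (fract r).den := Rat.num_lt_denom_iff.2 (fract_lt_one r)
        have e4 : 0 < (fract r).num := Rat.num_pos.2 hpos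
        omega
      obtain ⟨N, hN⟩ := ih _ hden
      refine ⟨N + 1, fun n hn => ?_⟩
      obtain ⟨n, rfl⟩ : ∃ k, n = k + 1 := ⟨n - 1, by omega⟩
      rw [Real.convergent_succ]
      have e5 : (fract (r : ℝ))⁻¹ = (((fract r)⁻¹ : ℚ) : ℝ) := by
        rw [Rat.cast_inv, Rat.cast_fract]
      rw [e5, hN n (by omega), inv_inv, Rat.floor_cast, floor_add_fract]

end Pool.Agent.Lib.MP_606be1_nt
end

-- part Pool.Agent.Lib.MP_606be1_nt.Count
section

/-! Two-sided bounds for the number of solutions of `|α^n - β^m| ≤ x`. -/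

namespace Pool.Agent.Lib.MP_606be1_nt

open Real Set Filter

/-- solutions -/
def T (α β x : ℝ) : Set (ℕ × ℕ) := {p | |α ^ p.1 - β ^ p.2| ≤ x}

/-- denominators of convergents of `log α / log β` -/
noncomputable def q (α β : ℝ) (j : ℕ) : ℕ := ((log α / log β).convergent j).den

/-- indices of convergents followed by a huge denominator -/
def J (α β x : ℝ) : Set ℕ := {j | α ^ q α β j ≤ x * q α β (j + 1)}

lemma exp_sub_ge (s t y : ℝ) (h1 : y ≤ exp s) (h2 : y ≤ exp t) :
    y * |s - t| ≤ |exp s - exp t| := by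
  wlog h : t ≤ s generalizing s t
  · rw [abs_sub_comm s, abs_sub_comm (exp s)]
    exact this t s h2 h1 (by linarith)
  rw [abs_of_nonneg (by linarith), abs_of_nonneg (by linarith [exp_le_exp.2 h])]
  have e1 : exp s = exp t * exp (s - t) := by rw [← exp_add]; ring_nf
  have e2 := add_one_le_exp (s - t)
  have e3 := exp_pos t
  nlinarith

lemma exp_sub_le (s t y : ℝ) (h1 : exp s ≤ y) (h2 : exp t ≤ y) :
    |exp s - exp t| ≤ y * |s - t| := by
  wlog h : t ≤ s generalizing s t
  · rw [abs_sub_comm s, abs_sub_comm (exp s)]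
    exact this t s h2 h1 (by linarith)
  rw [abs_of_nonneg (by linarith [exp_le_exp.2 h]), abs_of_nonneg (by linarith)]
  have e1 : exp t = exp s * exp (t - s) := by rw [← exp_add]; ring_nf
  have e2 := add_one_le_exp (t - s)
  have e3 := exp_pos s
  nlinarith

lemma pow_eq_exp {α : ℝ} (hα : 1 < α) (n : ℕ) : α ^ n = exp (n * log α) := by
  rw [← log_pow, exp_log (by positivity)]

section
variable {α β : ℝ} (hα : 1 < α) (hβ : 1 < β)
include hα hβ

lemma xi_pos : 0 < log α / log β := div_pos (log_pos hα) (log_pos hβ)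

omit hα in
lemma lin_eq (n m : ℝ) : |n * log α - m * log β| = log β * |n * (log α / log β) - m| := by
  have hb := log_pos hβ
  rw [← abs_of_pos hb, ← abs_mul, abs_of_pos hb]
  congr 1
  field_simp

/-- a solution with large `α^n` gives a good approximation -/
lemma approx_of_mem {x : ℝ} {n m : ℕ} (h : (n, m) ∈ T α β x) (hn : 2 * x ≤ α ^ n) :
    α ^ n / 2 * (log β * |n * (log α / log β) - m|) ≤ x := by
  have h' : |α ^ n - β ^ m| ≤ x := h
  have h0 : 0 < α ^ n := by positivity
  have h1 : α ^ n / 2 ≤ β ^ m := by linarith [(abs_le.1 h').2]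
  rw [← lin_eq hβ]
  refine le_trans (exp_sub_ge _ _ _ ?_ ?_) ?_
  · rw [← pow_eq_exp hα]; linarith
  · rw [← pow_eq_exp hβ]; exact h1
  · rw [← pow_eq_exp hα, ← pow_eq_exp hβ]; exact h'

/-- a good approximation gives a solution -/
lemma dist_le {n m : ℕ} (h : |n * (log α / log β) - m| ≤ 1) :
    |α ^ n - β ^ m| ≤ α ^ n * β * (log β * |n * (log α / log β) - m|) := by
  have hb := log_pos hβ
  have h0 : 0 < α ^ n := by positivity
  have h1 : |n * log α - m * log β| ≤ log β := by
    rw [lin_eq hβ]; exact mul_le_of_le_one_right hb.le h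
  rw [← lin_eq hβ]
  conv_lhs => rw [pow_eq_exp hα, pow_eq_exp hβ]
  refine exp_sub_le _ _ _ ?_ ?_
  · rw [← pow_eq_exp hα]; nlinarith
  · rw [pow_eq_exp hα]
    calc _ ≤ exp (n * log α + log β) := exp_le_exp.2 (by linarith [(abs_le.1 h1).1])
      _ = _ := by rw [exp_add, exp_log (by linarith : 0 < β)]

/-- numerators as natural numbers -/
noncomputable def pp (α β : ℝ) (j : ℕ) : ℕ := (P (log α / log β) j).toNat

omit hα hβ in
lemma q_cast (hi : Irrational (log α / log β)) (j : ℕ) : (q α β j : ℤ) = Q (log α / log β) j :=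
  den_eq hi j

omit hα hβ in
lemma q_cast' (hi : Irrational (log α / log β)) (j : ℕ) : (q α β j : ℝ) = Q (log α / log β) j := by
  rw [← q_cast hi]; simp

lemma pp_cast (hi : Irrational (log α / log β)) (j : ℕ) : (pp α β j : ℤ) = P (log α / log β) j :=
  Int.toNat_of_nonneg (P_nonneg hi (xi_pos hα hβ) j)

lemma pp_cast' (hi : Irrational (log α / log β)) (j : ℕ) :
    (pp α β j : ℝ) = P (log α / log β) j := by
  rw [← pp_cast hα hβ hi]; simp

lemma conv_dist_le (hi : Irrational (log α / log β)) (j : ℕ) :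
    |α ^ q α β j - β ^ pp α β j| * q α β (j + 1) ≤ α ^ q α β j * (β * log β) := by
  have hb := log_pos hβ
  have e1 : |(q α β j : ℝ) * (log α / log β) - pp α β j| = E (log α / log β) j := by
    rw [q_cast' hi, pp_cast' hα hβ hi, abs_err hi]
  have e2 := E_le hi j
  have e3 := E_pos j _ hi
  have e4 : (1 : ℝ) ≤ Q (log α / log β) (j + 1) := by exact_mod_cast one_le_Q hi (j + 1)
  have e5 := dist_le hα hβ (n := q α β j) (m := pp α β j) (by rw [e1]; nlinarith)
  rw [e1] at e5
  rw [q_cast' hi (j + 1)]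
  have h0 : 0 < α ^ q α β j * β * log β := by positivity
  calc _ ≤ α ^ q α β j * β * (log β * E (log α / log β) j) * Q (log α / log β) (j + 1) := by gcongr
    _ = α ^ q α β j * β * log β * (Q (log α / log β) (j + 1) * E (log α / log β) j) := by ring
    _ ≤ α ^ q α β j * β * log β * 1 := by gcongr
    _ = _ := by ring

lemma conv_mem (hi : Irrational (log α / log β)) {x : ℝ} {j : ℕ} (hj : j ∈ J α β x) :
    (q α β j, pp α β j) ∈ T α β (x * (β * log β)) := by
  have hb := log_pos hβ
  have h1 := conv_dist_le hα hβ hi j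
  have h2 : α ^ q α β j ≤ x * q α β (j + 1) := hj
  have h3 : (0 : ℝ) < q α β (j + 1) := by exact_mod_cast Rat.den_pos _
  change |α ^ q α β j - β ^ pp α β j| ≤ _
  refine le_of_mul_le_mul_right ?_ h3
  calc _ ≤ α ^ q α β j * (β * log β) := h1
    _ ≤ x * q α β (j + 1) * (β * log β) := by gcongr
    _ = _ := by ring

omit hα hβ in
lemma q_injOn (hi : Irrational (log α / log β)) : InjOn (q α β) (Ici 1) := by
  have : StrictMono fun n => q α β (n + 1) := strictMono_nat_of_lt_succ fun n => by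
    have := Q_succ_gt hi n
    rw [← q_cast hi, ← q_cast hi] at this
    exact_mod_cast this
  intro i hi' j hj hij
  obtain ⟨i, rfl⟩ : ∃ k, i = k + 1 := ⟨i - 1, by have : 1 ≤ i := hi'; omega⟩
  obtain ⟨j, rfl⟩ : ∃ k, j = k + 1 := ⟨j - 1, by have : 1 ≤ j := hj; omega⟩
  rw [this.injective hij]

omit hα hβ in
lemma le_q (hi : Irrational (log α / log β)) (j : ℕ) : j ≤ q α β j := by
  have := le_Q hi j
  rw [← q_cast hi] at this
  exact_mod_cast this

omit hβ in
lemma pow_le_iff {y : ℝ} (hy : 1 ≤ y) (n : ℕ) : α ^ n ≤ y ↔ n < ⌊log y / log α⌋₊ + 1 := by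
  have ha := log_pos hα
  rw [Nat.lt_succ_iff, Nat.le_floor_iff (div_nonneg (log_nonneg hy) ha.le), le_div_iff₀ ha,
    ← log_pow, log_le_log_iff (by positivity) (by linarith)]

lemma J_finite (hi : Irrational (log α / log β)) {x : ℝ} (hT : (T α β (x * (β * log β))).Finite) :
    (J α β x).Finite := by
  have : (J α β x ∩ Ici 1).Finite := by
    refine Finite.of_finite_image (f := fun j => (q α β j, pp α β j)) (hT.subset ?_) ?_
    · rintro _ ⟨j, hj, rfl⟩
      exact conv_mem hα hβ hi hj.1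
    · intro i hi' j hj hij
      exact q_injOn hi hi'.2 hj.2 (congrArg Prod.fst hij)
  refine (this.union (finite_singleton 0)).subset fun j hj => ?_
  rcases Nat.eq_zero_or_pos j with h | h
  · right; exact h
  · left; exact ⟨hj, h⟩

/-- lower bound -/
lemma lower (hi : Irrational (log α / log β)) {x : ℝ} (hx : 1 ≤ x) (hT : (T α β x).Finite) :
    log x ^ 2 / (log α * log β) + (J α β (x / (β * log β))).ncard - (log x / log α + 1)
      ≤ (T α β x).ncard := by
  classical
  have ha := log_pos hα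
  have hb := log_pos hβ
  have hL := log_nonneg hx
  set c := β * log β with hc
  have hc0 : 0 < c := by positivity
  have hxc : x / c * c = x := by field_simp
  have hJ : (J α β (x / c)).Finite := J_finite hα hβ hi (by rw [hxc]; exact hT)
  set N := ⌊log x / log α⌋₊ + 1 with hN
  set M := ⌊log x / log β⌋₊ + 1 with hM
  set S := hJ.toFinset \ Finset.range N with hS
  set f : ℕ → ℕ × ℕ := fun j => (q α β j, pp α β j) with hf
  have hsub : ((Finset.range N ×ˢ Finset.range M ∪ S.image f : Finset (ℕ × ℕ)) : Set (ℕ × ℕ))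
      ⊆ T α β x := by
    intro p hp
    simp only [Finset.coe_union, Finset.coe_product, Finset.coe_range, Finset.coe_image, mem_union,
      mem_prod, mem_Iio, mem_image, Finset.mem_coe] at hp
    rcases hp with ⟨h1, h2⟩ | ⟨j, hj, rfl⟩
    · have h1 := (pow_le_iff hα hx _).2 h1
      have h2 := (pow_le_iff hβ hx _).2 h2
      have h3 : 0 < α ^ p.1 := by positivity
      have h4 : 0 < β ^ p.2 := by positivity
      change |α ^ p.1 - β ^ p.2| ≤ x
      exact abs_le.2 ⟨by linarith, by linarith⟩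
    · have : j ∈ J α β (x / c) := by simpa using (Finset.mem_sdiff.1 hj).1
      have := conv_mem hα hβ hi this
      rwa [hxc] at this
  have hdisj : Disjoint (Finset.range N ×ˢ Finset.range M) (S.image f) := by
    rw [Finset.disjoint_left]
    intro p hp hp'
    obtain ⟨j, hj, rfl⟩ := Finset.mem_image.1 hp'
    have h1 : ¬ j < N := by simpa using (Finset.mem_sdiff.1 hj).2
    have h2 : q α β j < N := by simpa using (Finset.mem_product.1 hp).1
    have := le_q hi j
    omega
  have hinj : (S.image f).card = S.card := by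
    refine Finset.card_image_of_injOn fun i hi' j hj hij => ?_
    have h1 : ¬ i < N := by simpa using (Finset.mem_sdiff.1 hi').2
    have h2 : ¬ j < N := by simpa using (Finset.mem_sdiff.1 hj).2
    exact q_injOn hi (show 1 ≤ i by omega) (show 1 ≤ j by omega) (congrArg Prod.fst hij)
  have h1 := ncard_le_ncard hsub hT
  rw [ncard_coe_finset, Finset.card_union_of_disjoint hdisj, Finset.card_product,
    Finset.card_range, Finset.card_range, hinj] at h1
  have h2 : hJ.toFinset.card ≤ S.card + N := by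
    have := Finset.le_card_sdiff (Finset.range N) hJ.toFinset
    rw [Finset.card_range, ← hS] at this
    omega
  rw [← ncard_eq_toFinset_card _ hJ] at h2
  have h3 : log x / log α ≤ N := by
    rw [hN]; push_cast; exact (Nat.lt_floor_add_one _).le
  have h4 : log x / log β ≤ M := by
    rw [hM]; push_cast; exact (Nat.lt_floor_add_one _).le
  have h5 : (N : ℝ) ≤ log x / log α + 1 := by
    rw [hN]; push_cast; linarith [Nat.floor_le (div_nonneg hL ha.le)]
  have h6 : log x ^ 2 / (log α * log β) ≤ N * M := by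
    calc _ = log x / log α * (log x / log β) := by field_simp
      _ ≤ _ := by gcongr
  have h1' : (N : ℝ) * M + S.card ≤ (T α β x).ncard := by exact_mod_cast h1
  have h2' : ((J α β (x / c)).ncard : ℝ) ≤ S.card + N := by exact_mod_cast h2
  linarith

omit hβ in
lemma exists_M (hJ : (J α β 1).Finite) : ∃ M : ℝ, 1 ≤ M ∧ ∀ j, q α β (j + 1) ≤ M * α ^ q α β j := by
  obtain ⟨M, hM⟩ := (hJ.image fun j => (q α β (j + 1) : ℝ)).bddAbove
  refine ⟨max M 1, le_max_right _ _, fun j => ?_⟩
  have h0 : 1 ≤ α ^ q α β j := one_le_pow₀ hα.le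
  by_cases hj : j ∈ J α β 1
  · have := hM ⟨j, hj, rfl⟩
    have h1 := le_max_left M 1
    have h2 := le_max_right M 1
    nlinarith
  · have : ¬ α ^ q α β j ≤ 1 * q α β (j + 1) := hj
    have h2 := le_max_right M 1
    nlinarith

/-- large solutions are convergents -/
lemma large (hi : Irrational (log α / log β)) (hJ : (J α β 1).Finite) :
    ∃ C : ℝ, 0 ≤ C ∧ ∀ x, 1 ≤ x → ∀ n m : ℕ, (n, m) ∈ T α β x → 2 * x ≤ α ^ n →
      2 / log α * (log x + C) < n → ∃ j ∈ J α β (4 / log β * x), n = q α β j ∧ m = pp α β j := by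
  have ha := log_pos hα
  have hb := log_pos hβ
  obtain ⟨M, hM1, hM⟩ := exists_M hα hJ
  refine ⟨max 0 (max (log (8 / (log α * log β))) (log (4 * M / log β))), le_max_left _ _,
    fun x hx n m h hn hC => ?_⟩
  have hL := log_nonneg hx
  set C := max 0 (max (log (8 / (log α * log β))) (log (4 * M / log β))) with hCdef
  have c0 : 0 ≤ C := le_max_left _ _
  have c1 : log (8 / (log α * log β)) ≤ C := (le_max_left _ _).trans (le_max_right _ _)
  have c2 : log (4 * M / log β) ≤ C := (le_max_right _ _).trans (le_max_right _ _)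
  have hC' : log x + C < n * log α / 2 := by
    rw [div_mul_eq_mul_div, div_lt_iff₀ ha] at hC
    linarith
  have hn0 : (0 : ℝ) < n := by
    by_contra hh
    have : (n : ℝ) = 0 := le_antisymm (not_lt.1 hh) (Nat.cast_nonneg n)
    rw [this] at hC'
    linarith
  set s := exp (n * log α / 2) with hs
  have hss : α ^ n = s * s := by rw [pow_eq_exp hα, hs, ← exp_add]; ring_nf
  have s0 : 0 < s := exp_pos _
  have s1 : ∀ y : ℝ, 0 < y → log y ≤ C → x * y < s := fun y hy hyC => by
    rw [hs, ← exp_log (by linarith : 0 < x), ← exp_log hy, ← exp_add]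
    exact exp_lt_exp.2 (by linarith)
  have s2 : n * log α / 2 ≤ s := by linarith [add_one_le_exp (n * log α / 2)]
  have h1 := approx_of_mem hα hβ h hn
  set ξ := log α / log β with hξ
  set δ := |(n : ℝ) * ξ - m| with hδ
  have δ0 : 0 ≤ δ := abs_nonneg _
  have h2 : δ * (2 * n) < 1 := by
    have e1 := s1 _ (by positivity) c1
    have e2 : 8 * x < s * (log α * log β) := by
      rw [← mul_div_assoc, div_lt_iff₀ (by positivity)] at e1
      linarith
    have e3 : n * log α / 2 * s / 2 * (log β * δ) ≤ x := by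
      refine le_trans ?_ h1
      rw [hss]
      gcongr
    by_contra hh
    have e4 : 1 ≤ δ * (2 * n) := not_lt.1 hh
    have e5 : 0 < s * (log α * log β) := by positivity
    nlinarith
  obtain ⟨j, hj1, hj2⟩ := exists_index hi (n := n) (by exact_mod_cast hn0)
  obtain ⟨hE, hk⟩ := best hi j (n := n) (m := m) (by exact_mod_cast hn0) hj2
  obtain ⟨k, hk1, hk2⟩ := hk hj1 (by exact_mod_cast h2)
  have hE' : E ξ j ≤ δ := by exact_mod_cast hE
  have h3 := le_E hi j
  rw [← q_cast' hi] at h3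
  have hq : (0 : ℝ) < q α β (j + 1) := by exact_mod_cast Rat.den_pos _
  have h4 : α ^ n ≤ 4 / log β * x * q α β (j + 1) := by
    have e1 : 1 ≤ 2 * (q α β (j + 1) * δ) := h3.trans (by gcongr)
    have e2 : 0 < α ^ n := by positivity
    rw [div_mul_eq_mul_div, div_mul_eq_mul_div, le_div_iff₀ hb]
    have e3 : α ^ n * log β * 1 ≤ α ^ n * log β * (2 * (q α β (j + 1) * δ)) := by gcongr
    have e4 : α ^ n / 2 * (log β * δ) * q α β (j + 1) ≤ x * q α β (j + 1) := by gcongr
    linarith
  have q1 := one_le_Q hi j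
  have hn1 : (0 : ℤ) < n := by exact_mod_cast hn0
  have hk0 : 0 < k := by
    by_contra hh
    have : k * Q ξ j ≤ 0 := mul_nonpos_of_nonpos_of_nonneg (by omega) (by omega)
    omega
  by_cases hk1' : k = 1
  · subst hk1'
    have e1 : n = q α β j := by
      have : (q α β j : ℤ) = Q ξ j := q_cast hi j
      omega
    have e2 : m = pp α β j := by
      have : (pp α β j : ℤ) = P ξ j := pp_cast hα hβ hi j
      omega
    refine ⟨j, ?_, e1, e2⟩
    change α ^ q α β j ≤ _
    rw [← e1]; exact h4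
  · exfalso
    have e1 : 2 * q α β j ≤ n := by
      have : (q α β j : ℤ) = Q ξ j := q_cast hi j
      have : 2 * Q ξ j ≤ k * Q ξ j := by nlinarith [(by omega : 2 ≤ k)]
      omega
    have e2 : α ^ q α β j ≤ s := by
      rw [pow_eq_exp hα, hs]
      have : (2 : ℝ) * q α β j ≤ n := by exact_mod_cast e1
      exact exp_le_exp.2 (by nlinarith)
    have e3 := s1 _ (by positivity) c2
    have e4 : (q α β (j + 1) : ℝ) ≤ M * s := (hM j).trans (by gcongr)
    have e5 : s * s ≤ 4 / log β * x * (M * s) := by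
      rw [← hss]; exact h4.trans (by gcongr)
    have e6 : 4 / log β * x * (M * s) = x * (4 * M / log β) * s := by ring
    nlinarith

/-- upper bound -/
lemma upper (hi : Irrational (log α / log β)) (hJ : ∀ x, (J α β x).Finite) :
    ∃ C : ℝ, 0 ≤ C ∧ ∀ x, 1 ≤ x → (T α β x).Finite ∧ ((T α β x).ncard : ℝ) ≤
      (log (2 * x) / log α + 1) * (log (3 * x) / log β + 1)
        + (2 / log α * (log x + C) + 1) * (2 / log β + 1) + (J α β (4 / log β * x)).ncard := by
  classical
  have ha := log_pos hα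
  have hb := log_pos hβ
  obtain ⟨C, hC0, hC⟩ := large hα hβ hi (hJ 1)
  refine ⟨C, hC0, fun x hx => ?_⟩
  have hL := log_nonneg hx
  set N := ⌊log (2 * x) / log α⌋₊ + 1 with hN
  set M := ⌊log (3 * x) / log β⌋₊ + 1 with hM
  set N' := ⌊2 / log α * (log x + C)⌋₊ + 1 with hN'
  set K := ⌊2 / log β⌋₊ + 1 with hK
  set ξ := log α / log β with hξ
  set g : ℕ × ℕ → ℕ × ℕ := fun p => (p.1, ⌈p.1 * ξ - 1 / log β⌉₊ + p.2) with hg
  set f : ℕ → ℕ × ℕ := fun j => (q α β j, pp α β j) with hf
  set S := (hJ (4 / log β * x)).toFinset with hS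
  have hsub : T α β x ⊆ ((Finset.range N ×ˢ Finset.range M ∪
      (Finset.range N' ×ˢ Finset.range K).image g ∪ S.image f : Finset (ℕ × ℕ)) : Set (ℕ × ℕ)) := by
    rintro ⟨n, m⟩ h
    simp only [Finset.coe_union, Finset.coe_product, Finset.coe_range, Finset.coe_image, mem_union,
      mem_prod, mem_Iio, mem_image, Finset.mem_coe]
    have h' : |α ^ n - β ^ m| ≤ x := h
    rcases le_total (α ^ n) (2 * x) with hn | hn
    · left; left
      exact ⟨(pow_le_iff hα (by linarith) _).1 hn,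
        (pow_le_iff hβ (by linarith) _).1 (by linarith [(abs_le.1 h').1])⟩
    rcases lt_or_ge (2 / log α * (log x + C)) n with hn' | hn'
    · right
      obtain ⟨j, hj, rfl, rfl⟩ := hC x hx n m h hn hn'
      exact ⟨j, by simpa [hS] using hj, rfl⟩
    · left; right
      have h1 := approx_of_mem hα hβ h hn
      have h2 : |(n : ℝ) * ξ - m| ≤ 1 / log β := by
        rw [le_div_iff₀ hb]
        have e0 : 0 ≤ log β * |(n : ℝ) * ξ - m| := by positivity
        have e1 : x * (log β * |(n : ℝ) * ξ - m|) ≤ α ^ n / 2 * (log β * |(n : ℝ) * ξ - m|) := by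
          gcongr; linarith
        nlinarith
      obtain ⟨h3, h4⟩ := abs_le.1 h2
      have h5 : ⌈n * ξ - 1 / log β⌉₊ ≤ m := Nat.ceil_le.2 (by linarith)
      refine ⟨(n, m - ⌈n * ξ - 1 / log β⌉₊), ⟨?_, ?_⟩, ?_⟩
      · exact Nat.lt_succ_of_le (Nat.le_floor hn')
      · refine Nat.lt_succ_of_le (Nat.le_floor ?_)
        have := Nat.le_ceil (n * ξ - 1 / log β)
        rw [Nat.cast_sub h5]
        have e : 2 / log β = 2 * (1 / log β) := by ring
        linarith
      · simp only [hg, Prod.mk.injEq, true_and]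
        omega
  refine ⟨(Finset.finite_toSet _).subset hsub, ?_⟩
  have h1 := ncard_le_ncard hsub (Finset.finite_toSet _)
  rw [ncard_coe_finset] at h1
  have h2 : (T α β x).ncard ≤ N * M + N' * K + S.card := by
    refine h1.trans ((Finset.card_union_le _ _).trans (add_le_add
      ((Finset.card_union_le _ _).trans (add_le_add ?_ ?_)) Finset.card_image_le))
    · simp
    · exact Finset.card_image_le.trans (by simp)
  rw [hS, ← ncard_eq_toFinset_card _ (hJ _)] at h2
  have l2 : 0 ≤ log (2 * x) := log_nonneg (by linarith)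
  have l3 : 0 ≤ log (3 * x) := log_nonneg (by linarith)
  have h3 : (N : ℝ) ≤ log (2 * x) / log α + 1 := by
    rw [hN]; push_cast; linarith [Nat.floor_le (div_nonneg l2 ha.le)]
  have h4 : (M : ℝ) ≤ log (3 * x) / log β + 1 := by
    rw [hM]; push_cast; linarith [Nat.floor_le (div_nonneg l3 hb.le)]
  have h5 : (N' : ℝ) ≤ 2 / log α * (log x + C) + 1 := by
    rw [hN']; push_cast
    linarith [Nat.floor_le (show 0 ≤ 2 / log α * (log x + C) by positivity)]
  have h6 : (K : ℝ) ≤ 2 / log β + 1 := by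
    rw [hK]; push_cast; linarith [Nat.floor_le (show 0 ≤ 2 / log β by positivity)]
  have h2' : ((T α β x).ncard : ℝ) ≤ N * M + N' * K + (J α β (4 / log β * x)).ncard := by
    exact_mod_cast h2
  refine h2'.trans ?_
  gcongr

end

end Pool.Agent.Lib.MP_606be1_nt
end

-- part Pool.Agent.Lib.MP_606be1_nt.Crit
section

/-! The exact criterion for the asymptotic formula. -/

namespace Pool.Agent.Lib.MP_606be1_nt

open Real Set Filter Asymptotics

lemma lin_isLittleO (A B : ℝ) :
    (fun x : ℝ => A * log x + B) =o[atTop] fun x => log x ^ 2 := by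
  have h1 : (fun y : ℝ => y ^ 1) =o[atTop] fun y => y ^ 2 := isLittleO_pow_pow_atTop_of_lt (by norm_num)
  have h0 : (fun y : ℝ => y ^ 0) =o[atTop] fun y => y ^ 2 := isLittleO_pow_pow_atTop_of_lt (by norm_num)
  have := ((h1.const_mul_left A).add (h0.const_mul_left B)).comp_tendsto tendsto_log_atTop
  simpa [Function.comp_def] using this

lemma scale_isLittleO {f : ℝ → ℝ} (hf : f =o[atTop] fun x => log x ^ 2) {c : ℝ} (hc : 0 < c) :
    (fun x => f (c * x)) =o[atTop] fun x => log x ^ 2 := by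
  have h1 := hf.comp_tendsto (tendsto_id.const_mul_atTop hc)
  refine h1.trans_isBigO ?_
  have h2 := (isBigO_refl (fun x : ℝ => log x ^ 2) atTop).add
    (lin_isLittleO (2 * log c) (log c ^ 2)).isBigO
  refine h2.congr' ?_ EventuallyEq.rfl
  filter_upwards [eventually_gt_atTop 0] with x hx
  simp only [Function.comp, id]
  rw [log_mul hc.ne' hx.ne']
  ring

section
variable {α β : ℝ} (hα : 1 < α) (hβ : 1 < β)
include hα hβ

lemma T_infinite_of_rat (hi : ¬ Irrational (log α / log β)) {x : ℝ} (hx : 0 ≤ x) :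
    (T α β x).Infinite := by
  have ha := log_pos hα
  have hb := log_pos hβ
  obtain ⟨r, hr⟩ : ∃ r : ℚ, (r : ℝ) = log α / log β := by simpa [Irrational] using hi
  have hr0 : 0 < r := by
    have := xi_pos hα hβ
    rw [← hr] at this
    exact_mod_cast this
  have hnum : 0 < r.num := Rat.num_pos.2 hr0
  have key : α ^ r.den = β ^ r.num.toNat := by
    rw [pow_eq_exp hα, pow_eq_exp hβ]
    congr 1
    have e1 : ((r.num.toNat : ℕ) : ℝ) = r.num := by
      rw [← Int.cast_natCast, Int.toNat_of_nonneg hnum.le]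
    have e2 : (r : ℝ) = r.num / r.den := Rat.cast_def r
    have e3 : (r.den : ℝ) ≠ 0 := by exact_mod_cast r.den_ne_zero
    rw [e1]
    rw [e2, div_eq_div_iff e3 hb.ne'] at hr
    linarith
  refine infinite_of_injective_forall_mem (f := fun k : ℕ => (r.den * k, r.num.toNat * k)) ?_ ?_
  · intro i j hij
    exact Nat.eq_of_mul_eq_mul_left r.den_pos (congrArg Prod.fst hij)
  · intro k
    change |α ^ (r.den * k) - β ^ (r.num.toNat * k)| ≤ x
    rw [pow_mul, pow_mul, key]
    simpa using hx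

omit hβ in
lemma J_infinite_of_rat (hi : ¬ Irrational (log α / log β)) : ∃ x, (J α β x).Infinite := by
  obtain ⟨r, hr⟩ : ∃ r : ℚ, (r : ℝ) = log α / log β := by simpa [Irrational] using hi
  obtain ⟨N, hN⟩ := convergent_rat r.den r le_rfl
  refine ⟨α ^ r.den, (Set.Ici_infinite N).mono fun j hj => ?_⟩
  have hj : N ≤ j := hj
  change α ^ q α β j ≤ α ^ r.den * q α β (j + 1)
  unfold q
  rw [← hr, hN j hj, hN (j + 1) (by omega)]
  have : (1 : ℝ) ≤ r.den := by exact_mod_cast r.den_pos
  have h0 : 0 < α ^ r.den := by positivity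
  nlinarith

omit hα hβ in
lemma T_mono {x y : ℝ} (h : x ≤ y) : T α β x ⊆ T α β y := fun _ hp => le_trans hp h

lemma finite_of_equiv
    (h : IsEquivalent atTop (fun x : ℝ => ((T α β x).ncard : ℝ))
      (fun x => log x ^ 2 / (log α * log β))) (x : ℝ) : (T α β x).Finite := by
  have ha := log_pos hα
  have hb := log_pos hβ
  have h1 : ∀ᶠ y : ℝ in atTop, 0 < log y ^ 2 / (log α * log β) := by
    filter_upwards [eventually_gt_atTop 1] with y hy
    have := log_pos hy
    positivity
  obtain ⟨y, hy1, hy2⟩ := ((h.eventually_pos h1).and (eventually_ge_atTop x)).exists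
  refine (finite_of_ncard_pos ?_).subset (T_mono hy2)
  exact_mod_cast hy1

theorem criterion :
    IsEquivalent atTop (fun x : ℝ => ((T α β x).ncard : ℝ))
      (fun x => log x ^ 2 / (log α * log β)) ↔
    (∀ x, (J α β x).Finite) ∧
      (fun x => ((J α β x).ncard : ℝ)) =o[atTop] fun x => log x ^ 2 := by
  have ha := log_pos hα
  have hb := log_pos hβ
  have hc : 0 < β * log β := by positivity
  have hO : (fun x : ℝ => log x ^ 2 / (log α * log β)) =O[atTop] fun x => log x ^ 2 := by
    simpa [div_eq_inv_mul] using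
      (isBigO_refl (fun x : ℝ => log x ^ 2) atTop).const_mul_left (log α * log β)⁻¹
  have hO' : (fun x : ℝ => log x ^ 2) =O[atTop] fun x => log x ^ 2 / (log α * log β) := by
    simpa [div_eq_inv_mul] using
      (isBigO_refl (fun x : ℝ => log x ^ 2) atTop).const_mul_right
        (c := (log α * log β)⁻¹) (by positivity)
  constructor
  · intro h
    have hT := finite_of_equiv hα hβ h
    have hi : Irrational (log α / log β) := by
      by_contra hi
      exact T_infinite_of_rat hα hβ hi le_rfl (hT 0)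
    refine ⟨fun x => J_finite hα hβ hi (hT _), ?_⟩
    have h1 := (h.isLittleO.trans_isBigO hO).add (lin_isLittleO (1 / log α) 1)
    have h2 : (fun x => ((J α β (x / (β * log β))).ncard : ℝ)) =o[atTop] fun x => log x ^ 2 := by
      refine IsBigO.trans_isLittleO (IsBigO.of_bound 1 ?_) h1
      filter_upwards [eventually_ge_atTop 1] with x hx
      have := lower hα hβ hi hx (hT x)
      rw [Real.norm_natCast, one_mul, Real.norm_eq_abs]
      refine le_trans ?_ (le_abs_self _)
      simp only [Pi.sub_apply]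
      have e : 1 / log α * log x = log x / log α := by ring
      linarith
    have h3 := scale_isLittleO h2 hc
    refine h3.congr_left fun x => ?_
    rw [mul_div_cancel_left₀ _ hc.ne']
  · rintro ⟨hJ, hJ'⟩
    have hi : Irrational (log α / log β) := by
      by_contra hi
      obtain ⟨x, hx⟩ := J_infinite_of_rat hα hi
      exact hx (hJ x)
    obtain ⟨C, hC0, hC⟩ := upper hα hβ hi hJ
    refine IsLittleO.trans_isBigO ?_ hO'
    set A : ℝ := (log 2 / log α + 1) / log β + (log 3 / log β + 1) / log α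
      + 2 / log α * (2 / log β + 1) with hA
    set B : ℝ := (log 2 / log α + 1) * (log 3 / log β + 1)
      + (2 / log α * C + 1) * (2 / log β + 1) with hB
    have h1 := ((scale_isLittleO hJ' (c := 4 / log β) (by positivity)).add
      (lin_isLittleO A B)).add (lin_isLittleO (1 / log α) 1)
    refine IsBigO.trans_isLittleO (IsBigO.of_bound 1 ?_) h1
    filter_upwards [eventually_ge_atTop 1] with x hx
    obtain ⟨hT, hu⟩ := hC x hx
    have hl := lower hα hβ hi hx hT
    have hL := log_nonneg hx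
    rw [log_mul (by norm_num) (by linarith), log_mul (by norm_num) (by linarith)] at hu
    have e1 : (((log 2 + log x) / log α + 1) * ((log 3 + log x) / log β + 1)
        + (2 / log α * (log x + C) + 1) * (2 / log β + 1))
        = log x ^ 2 / (log α * log β) + (A * log x + B) := by
      rw [hA, hB]; field_simp; ring
    rw [e1] at hu
    have l2 : 0 < log 2 := log_pos (by norm_num)
    have l3 : 0 < log 3 := log_pos (by norm_num)
    have e2 : 0 ≤ A * log x + B := by positivity
    have e3 : 0 ≤ 1 / log α * log x + 1 := by positivity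
    have e4 : (0 : ℝ) ≤ (J α β (4 / log β * x)).ncard := by positivity
    have e5 : (0 : ℝ) ≤ (J α β (x / (β * log β))).ncard := by positivity
    have e : 1 / log α * log x = log x / log α := by ring
    rw [one_mul, Real.norm_eq_abs, Real.norm_eq_abs, abs_of_nonneg (a := _ + _) (by linarith),
      abs_le]
    simp only [Pi.sub_apply]
    constructor <;> linarith

end

end Pool.Agent.Lib.MP_606be1_nt
end
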