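import Mathlib

namespace Pool.Agent.Lib.MP_606be1_nt

/-- the tower of twos: `tw 0 = 1`, `tw (k+1) = 2 ^ tw k` -/
def tw : ℕ → ℕ
  | 0 => 1
  | k + 1 => 2 ^ tw k

end Pool.Agent.Lib.MP_606be1_nt
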