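import Pool.Agent.Lib.MP_606be1_nt.Crit
import Pool.Agent.Lib.MP_606be1_nt.Defs

/-! A tower-type sufficient condition for the asymptotic formula. -/

namespace Pool.Agent.Lib.MP_606be1_nt

open Real Set Filter Asymptotics

lemma tw_lt_succ (k : ℕ) : tw k < tw (k + 1) := Nat.lt_two_pow_self

lemma tw_strictMono : StrictMono tw := strictMono_nat_of_lt_succ tw_lt_succ

lemma le_tw (k : ℕ) : k ≤ tw k := tw_strictMono.id_le k

lemma q_mono {α β : ℝ} (hi : Irrational (log α / log β)) : Monotone (q α β) := fun i j h => by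
  have := Q_mono hi h
  rw [← q_cast hi, ← q_cast hi] at this
  exact_mod_cast this

lemma chain {α β : ℝ} (hα : 1 < α) (hi : Irrational (log α / log β)) {x : ℝ} (hx : 1 ≤ x)
    (k : ℕ) : ∀ S : Finset ℕ,
      (∀ j ∈ S, j ∈ J α β x ∧ 2 * log x / log α + 16 / log α ^ 3 ≤ j) → 2 * k < S.card →
      ∃ j ∈ S, tw k ≤ q α β j := by
  have ha := log_pos hα
  have hL := log_nonneg hx
  induction k with
  | zero =>
    intro S _ hS
    obtain ⟨j, hj⟩ := Finset.card_pos.1 hS
    exact ⟨j, hj, Rat.den_pos _⟩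
  | succ k ih =>
    intro S hS hc
    have step : ∀ j ∈ S, ∀ i, j < i → exp (log α * q α β j / 2) ≤ q α β i := by
      intro j hj i hji
      obtain ⟨h1, h2⟩ := hS j hj
      have h1 : α ^ q α β j ≤ x * q α β (j + 1) := h1
      have h3 : (j : ℝ) ≤ q α β j := by exact_mod_cast le_q hi j
      have h4 : (q α β (j + 1) : ℝ) ≤ q α β i := by exact_mod_cast q_mono hi hji
      have h5 : 0 < 16 / log α ^ 3 := by positivity
      have h6 : 2 * log x / log α ≤ q α β j := by linarith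
      rw [div_le_iff₀ ha] at h6
      have h7 : x ≤ exp (log α * q α β j / 2) := by
        rw [← exp_log (by linarith : 0 < x)]
        exact exp_le_exp.2 (by linarith)
      have h8 : α ^ q α β j = exp (log α * q α β j / 2) * exp (log α * q α β j / 2) := by
        rw [pow_eq_exp hα, ← exp_add]; ring_nf
      have h9 := exp_pos (log α * q α β j / 2)
      refine le_trans (le_of_mul_le_mul_left (a := exp (log α * q α β j / 2)) ?_ h9) h4
      rw [← h8]
      exact h1.trans (by gcongr)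
    have hne : S.Nonempty := Finset.card_pos.1 (by omega)
    set j2 := S.max' hne with hj2
    have m2 : j2 ∈ S := S.max'_mem hne
    have c1 : (S.erase j2).card = S.card - 1 := Finset.card_erase_of_mem m2
    have hne1 : (S.erase j2).Nonempty := Finset.card_pos.1 (by omega)
    set j1 := (S.erase j2).max' hne1 with hj1
    have m1 : j1 ∈ S.erase j2 := Finset.max'_mem _ hne1
    have c2 : ((S.erase j2).erase j1).card = (S.erase j2).card - 1 := Finset.card_erase_of_mem m1
    obtain ⟨j, hj, hjk⟩ := ih ((S.erase j2).erase j1)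
      (fun j hj => hS j (Finset.mem_of_mem_erase (Finset.mem_of_mem_erase hj))) (by omega)
    have l1 : j < j1 := lt_of_le_of_ne (Finset.le_max' _ _ (Finset.mem_of_mem_erase hj))
      (Finset.ne_of_mem_erase hj)
    have l2 : j1 < j2 := lt_of_le_of_ne (Finset.le_max' _ _ (Finset.mem_of_mem_erase m1))
      (Finset.ne_of_mem_erase m1)
    have mj : j ∈ S := Finset.mem_of_mem_erase (Finset.mem_of_mem_erase hj)
    have s1 := step j mj j1 l1
    have s2 := step j1 (Finset.mem_of_mem_erase m1) j2 l2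
    refine ⟨j2, m2, ?_⟩
    set y : ℝ := (q α β j : ℝ) with hy
    have y0 : 16 / log α ^ 3 ≤ y := by
      have h3 : (j : ℝ) ≤ q α β j := by exact_mod_cast le_q hi j
      have := (hS j mj).2
      have : 0 ≤ 2 * log x / log α := by positivity
      linarith
    have y1 : 0 < y := lt_of_lt_of_le (by positivity) y0
    rw [div_le_iff₀ (by positivity)] at y0
    have e1 := quadratic_le_exp_of_nonneg (x := log α * y / 2) (by positivity)
    have e2 : y ≤ log α * q α β j1 / 2 := by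
      have e3 : (log α * y / 2) ^ 2 / 2 ≤ q α β j1 := by
        have : 0 ≤ log α * y / 2 := by positivity
        linarith
      have e4 : log α * ((log α * y / 2) ^ 2 / 2) / 2 ≤ log α * q α β j1 / 2 := by gcongr
      have e5 : log α * ((log α * y / 2) ^ 2 / 2) / 2 = y * (y * log α ^ 3) / 16 := by ring
      have e6 : y * 16 ≤ y * (y * log α ^ 3) := by gcongr
      linarith
    have e3 : (2 : ℝ) ^ q α β j ≤ exp y := by
      rw [hy, ← exp_one_pow]
      gcongr
      linarith [add_one_le_exp (1 : ℝ)]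
    have e4 : ((2 ^ q α β j : ℕ) : ℝ) ≤ q α β j2 := by
      push_cast
      exact e3.trans ((exp_le_exp.2 e2).trans s2)
    have e5 : 2 ^ q α β j ≤ q α β j2 := by exact_mod_cast e4
    exact (Nat.pow_le_pow_right (by norm_num) hjk).trans e5

theorem tower {α β : ℝ} (hα : 1 < α) (hβ : 1 < β)
    (H : ∀ C : ℝ, ∃ K : ℕ, ∀ k ≥ K, ∀ n m : ℕ, tw k ≤ n → exp (C * √k) ≤ |α ^ n - β ^ m|) :
    IsEquivalent atTop (fun x : ℝ => ((T α β x).ncard : ℝ))
      (fun x => log x ^ 2 / (log α * log β)) := by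
  have ha := log_pos hα
  have hb := log_pos hβ
  set c := β * log β with hc
  have hc0 : 0 < c := by positivity
  have hi : Irrational (log α / log β) := by
    by_contra hi
    obtain ⟨K, hK⟩ := H 0
    have hinf := T_infinite_of_rat hα hβ hi le_rfl
    have hinj : InjOn Prod.fst (T α β 0) := by
      rintro ⟨n, m⟩ h1 ⟨n', m'⟩ h2 h
      have h1 : |α ^ n - β ^ m| ≤ 0 := h1
      have h2 : |α ^ n' - β ^ m'| ≤ 0 := h2
      obtain rfl : n = n' := h
      rw [abs_nonpos_iff, sub_eq_zero] at h1 h2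
      rw [pow_right_injective₀ (by linarith) hβ.ne' (h1.symm.trans h2)]
    obtain ⟨_, ⟨p, hp, rfl⟩, hn⟩ := (hinf.image hinj).exists_gt (tw K)
    have h1 := hK K le_rfl p.1 p.2 hn.le
    have h2 : |α ^ p.1 - β ^ p.2| ≤ 0 := hp
    linarith [exp_pos (0 * √K)]
  have key : ∀ C : ℝ, 0 < C → ∃ K : ℕ, ∀ x, 1 ≤ x → ∀ k ≥ K, log (x * c) ^ 2 / C ^ 2 < k →
      ∀ j ∈ J α β x, q α β j < tw k := by
    intro C hC
    obtain ⟨K, hK⟩ := H C
    refine ⟨K, fun x hx k hk hk' j hj => ?_⟩
    by_contra hh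
    have h1 := hK k hk _ (pp α β j) (not_lt.1 hh)
    have h2 : |α ^ q α β j - β ^ pp α β j| ≤ x * c := conv_mem hα hβ hi hj
    have h3 : C * √k ≤ log (x * c) := by
      rw [le_log_iff_exp_le (by positivity)]; linarith
    have h4 : (C * √k) ^ 2 ≤ log (x * c) ^ 2 := by gcongr
    rw [mul_pow, sq_sqrt (Nat.cast_nonneg k)] at h4
    rw [div_lt_iff₀ (by positivity)] at hk'
    linarith
  have hfin : ∀ x, (J α β x).Finite := by
    intro x
    obtain ⟨K, hK⟩ := key 1 one_pos
    obtain ⟨k, hk⟩ := exists_nat_gt (max (K : ℝ) (log (max x 1 * c) ^ 2 / 1 ^ 2))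
    have hk1 : K ≤ k := by exact_mod_cast ((le_max_left _ _).trans hk.le)
    refine (finite_lt_nat (tw k)).subset fun j hj => ?_
    have hj0 : α ^ q α β j ≤ x * q α β (j + 1) := hj
    have hj' : α ^ q α β j ≤ max x 1 * q α β (j + 1) :=
      le_trans hj0 (mul_le_mul_of_nonneg_right (le_max_left _ _) (Nat.cast_nonneg _))
    exact (le_q hi j).trans_lt
      (hK _ (le_max_right _ _) k hk1 ((le_max_right _ _).trans_lt hk) j hj')
  rw [criterion hα hβ]
  refine ⟨hfin, isLittleO_iff.2 fun ε hε => ?_⟩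
  obtain ⟨C, hC, hCε⟩ : ∃ C : ℝ, 0 < C ∧ 4 / C ^ 2 ≤ ε / 2 := by
    refine ⟨√(8 / ε), by positivity, ?_⟩
    rw [sq_sqrt (by positivity)]
    apply le_of_eq
    field_simp
    norm_num
  obtain ⟨K, hK⟩ := key C hC
  have hlin := isLittleO_iff.1 (lin_isLittleO (2 / log α)
    (16 / log α ^ 3 + 1 + 2 * K + 2 + 4 * log c ^ 2 / C ^ 2)) (half_pos hε)
  filter_upwards [hlin, eventually_ge_atTop 1] with x h1 hx
  classical
  have hL := log_nonneg hx
  set k := max K (⌊log (x * c) ^ 2 / C ^ 2⌋₊ + 1) with hk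
  set N := ⌈2 * log x / log α + 16 / log α ^ 3⌉₊ with hN
  set S := (hfin x).toFinset \ Finset.range N with hS
  have hk2 : log (x * c) ^ 2 / C ^ 2 < k := by
    have : ((⌊log (x * c) ^ 2 / C ^ 2⌋₊ + 1 : ℕ) : ℝ) ≤ k := by exact_mod_cast le_max_right _ _
    push_cast at this
    exact (Nat.lt_floor_add_one _).trans_le this
  have hSm : ∀ j ∈ S, j ∈ J α β x ∧ 2 * log x / log α + 16 / log α ^ 3 ≤ j := fun j hj => by
    obtain ⟨e1, e2⟩ := Finset.mem_sdiff.1 hj
    have e3 : N ≤ j := by simpa using e2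
    exact ⟨by simpa using e1, Nat.ceil_le.1 e3⟩
  have h2 : S.card ≤ 2 * k := by
    by_contra hh
    obtain ⟨j, hj, hj'⟩ := chain hα hi hx k S hSm (not_le.1 hh)
    exact absurd (hK x hx k (le_max_left _ _) hk2 j (hSm j hj).1) (not_lt.2 hj')
  have h3 : (hfin x).toFinset.card ≤ S.card + N := by
    have := Finset.le_card_sdiff (Finset.range N) (hfin x).toFinset
    rw [Finset.card_range, ← hS] at this
    omega
  rw [← ncard_eq_toFinset_card _ (hfin x)] at h3
  have h4 : ((J α β x).ncard : ℝ) ≤ 2 * k + N := by exact_mod_cast (by omega)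
  have h5 : (N : ℝ) ≤ 2 * log x / log α + 16 / log α ^ 3 + 1 :=
    (Nat.ceil_lt_add_one (by positivity)).le
  have h6 : (k : ℝ) ≤ K + log (x * c) ^ 2 / C ^ 2 + 1 := by
    have e1 : k ≤ K + (⌊log (x * c) ^ 2 / C ^ 2⌋₊ + 1) := by omega
    have e2 : (k : ℝ) ≤ K + (⌊log (x * c) ^ 2 / C ^ 2⌋₊ + 1) := by exact_mod_cast e1
    linarith [Nat.floor_le (show 0 ≤ log (x * c) ^ 2 / C ^ 2 by positivity)]
  have h7 : log (x * c) ^ 2 / C ^ 2 ≤ 2 / C ^ 2 * log x ^ 2 + 2 * log c ^ 2 / C ^ 2 := by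
    rw [log_mul (by linarith) hc0.ne']
    have : (log x + log c) ^ 2 ≤ 2 * log x ^ 2 + 2 * log c ^ 2 := by
      nlinarith [sq_nonneg (log x - log c)]
    calc _ ≤ (2 * log x ^ 2 + 2 * log c ^ 2) / C ^ 2 := by gcongr
      _ = _ := by ring
  have h8 : 4 / C ^ 2 * log x ^ 2 ≤ ε / 2 * log x ^ 2 := by gcongr
  rw [Real.norm_eq_abs, Real.norm_eq_abs, abs_of_nonneg (sq_nonneg (log x))] at h1
  rw [Real.norm_natCast, Real.norm_eq_abs, abs_of_nonneg (sq_nonneg _)]
  have h9 := le_abs_self (2 / log α * log x +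
    (16 / log α ^ 3 + 1 + 2 * K + 2 + 4 * log c ^ 2 / C ^ 2))
  have e1 : 2 / log α * log x = 2 * log x / log α := by ring
  have e2 : 4 / C ^ 2 * log x ^ 2 = 2 * (2 / C ^ 2 * log x ^ 2) := by ring
  have e3 : 4 * log c ^ 2 / C ^ 2 = 2 * (2 * log c ^ 2 / C ^ 2) := by ring
  linarith

end Pool.Agent.Lib.MP_606be1_nt
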