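import Pool.Agent.Lib.MP_606be1_nt.Crit
import Pool.Agent.Lib.MP_606be1_nt.Tower

-- part Pool.Agent.Lib.MP_606be1_nt.Prescribe
section

/-! Real numbers with adaptively prescribed continued fraction digits. -/

namespace Pool.Agent.Lib.MP_606be1_nt

open Int Set

/-- complete quotients -/
noncomputable def cq (ξ : ℝ) (k : ℕ) : ℝ := (fun y : ℝ => (fract y)⁻¹)^[k] ξ

lemma cq_succ (ξ : ℝ) (k : ℕ) : cq ξ (k + 1) = cq (fract ξ)⁻¹ k := rfl
lemma cq_succ' (ξ : ℝ) (k : ℕ) : cq ξ (k + 1) = (fract (cq ξ k))⁻¹ :=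
  Function.iterate_succ_apply' _ _ _

lemma irr_cq {ξ : ℝ} (h : Irrational ξ) (k : ℕ) : Irrational (cq ξ k) := by
  induction k with
  | zero => exact h
  | succ k ih => rw [cq_succ']; exact irr_next ih

lemma one_le_floor_cq {ξ : ℝ} (h : Irrational ξ) (k : ℕ) : 1 ≤ ⌊cq ξ (k + 1)⌋ := by
  rw [cq_succ']
  exact (le_floor (z := 1)).2 (by simpa using (one_lt_next (irr_cq h k)).le)

lemma back (n : ℕ) : ∀ ξ : ℝ, P ξ (n + 2) = ⌊cq ξ (n + 2)⌋ * P ξ (n + 1) + P ξ n ∧
    Q ξ (n + 2) = ⌊cq ξ (n + 2)⌋ * Q ξ (n + 1) + Q ξ n := by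
  induction n with
  | zero =>
    intro ξ
    simp only [P_succ, Q_succ, P_zero, Q_zero, zero_add]
    have : cq ξ 2 = (fract (fract ξ)⁻¹)⁻¹ := rfl
    rw [this]
    constructor <;> ring
  | succ n ih =>
    intro ξ
    obtain ⟨h1, h2⟩ := ih (fract ξ)⁻¹
    rw [P_succ ξ (n + 2), Q_succ ξ (n + 2), P_succ ξ (n + 1), Q_succ ξ (n + 1), P_succ ξ n,
      Q_succ ξ n, cq_succ ξ (n + 2), h1, h2]
    constructor <;> ring

lemma exists_chain (a : ℕ → ℤ) (ha : ∀ k, 1 ≤ a (k + 1)) :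
    ∃ y : ℕ → ℝ, ∀ k, y k ∈ Icc (a k : ℝ) (a k + 1) ∧ (y k - a k) * y (k + 1) = 1 := by
  have hne : ∀ N : ℕ, ∀ a : ℕ → ℤ, (∀ k, 1 ≤ a (k + 1)) → ∃ y : ℕ → ℝ,
      (∀ k, y k ∈ Icc (a k : ℝ) (a k + 1)) ∧ ∀ k < N, (y k - a k) * y (k + 1) = 1 := by
    intro N
    induction N with
    | zero => exact fun a _ => ⟨fun k => a k, fun k => ⟨le_rfl, by linarith⟩, by simp⟩
    | succ N ih =>
      intro a ha
      obtain ⟨y, h1, h2⟩ := ih (fun k => a (k + 1)) fun k => ha (k + 1)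
      have e1 : (1 : ℝ) ≤ y 0 := le_trans (by exact_mod_cast ha 0) (h1 0).1
      refine ⟨fun k => Nat.casesOn k (a 0 + (y 0)⁻¹) y, fun k => ?_, fun k hk => ?_⟩
      · cases k with
        | zero =>
          have : 0 < (y 0)⁻¹ := by positivity
          have : (y 0)⁻¹ ≤ 1 := inv_le_one_of_one_le₀ e1
          change (a 0 : ℝ) + (y 0)⁻¹ ∈ Icc (a 0 : ℝ) (a 0 + 1)
          constructor <;> linarith
        | succ k => exact h1 k
      · cases k with
        | zero =>
          change ((a 0 : ℝ) + (y 0)⁻¹ - a 0) * y 0 = 1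
          rw [add_sub_cancel_left]
          exact inv_mul_cancel₀ (by linarith)
        | succ k => exact h2 k (by omega)
  set C : ℕ → Set (ℕ → ℝ) := fun N => {y | (∀ k, y k ∈ Icc (a k : ℝ) (a k + 1)) ∧
    ∀ k < N, (y k - a k) * y (k + 1) = 1} with hC
  have hcl : ∀ N, IsClosed (C N) := fun N => by
    simp only [hC, ofPred_and, ofPred_forall]
    refine IsClosed.inter (isClosed_iInter fun k => isClosed_Icc.preimage (continuous_apply k))
      (isClosed_iInter fun k => isClosed_iInter fun _ => isClosed_eq (by fun_prop) continuous_const)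
  have hcomp : IsCompact (C 0) := by
    refine (isCompact_univ_pi fun k => isCompact_Icc (a := (a k : ℝ)) (b := a k + 1)).of_isClosed_subset
      (hcl 0) fun y hy k _ => hy.1 k
  obtain ⟨y, hy⟩ := IsCompact.nonempty_iInter_of_sequence_nonempty_isCompact_isClosed C
    (fun N y hy => ⟨hy.1, fun k hk => hy.2 k (by omega)⟩) (fun N => hne N a ha) hcomp hcl
  rw [mem_iInter] at hy
  exact ⟨y, fun k => ⟨(hy 0).1 k, (hy (k + 1)).2 k (by omega)⟩⟩

lemma den_next_lt {r : ℚ} (h1 : fract r ≠ 0) : (fract r)⁻¹.den < r.den := by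
  have hpos : 0 < fract r := lt_of_le_of_ne (fract_nonneg r) (Ne.symm h1)
  have e1 : (fract r)⁻¹.den = (fract r).num.natAbs := Rat.den_inv_of_ne_zero h1
  have e2 : (fract r).den = r.den := by
    unfold Int.fract
    exact Rat.sub_intCast_den r _
  have e3 : (fract r).num < (fract r).den := Rat.num_lt_denom_iff.2 (fract_lt_one r)
  have e4 : 0 < (fract r).num := Rat.num_pos.2 hpos
  omega

lemma exists_digits (a : ℕ → ℤ) (ha : ∀ k, 1 ≤ a (k + 1)) :
    ∃ ξ : ℝ, Irrational ξ ∧ ∀ k, ⌊cq ξ k⌋ = a k := by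
  obtain ⟨y, hy⟩ := exists_chain a ha
  have h1 : ∀ k, (1 : ℝ) ≤ y (k + 1) := fun k =>
    le_trans (by exact_mod_cast ha k) (hy (k + 1)).1.1
  have h2 : ∀ k, y k - a k = (y (k + 1))⁻¹ := fun k => eq_inv_of_mul_eq_one_left (hy k).2
  have h3 : ∀ k, (a k : ℝ) < y k := fun k => by
    have := h2 k
    have : 0 < (y (k + 1))⁻¹ := by have := h1 k; positivity
    linarith
  have h4 : ∀ k, 1 < y (k + 1) := fun k => lt_of_le_of_lt (by exact_mod_cast ha k) (h3 (k + 1))
  have h5 : ∀ k, ⌊y k⌋ = a k := fun k => by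
    rw [floor_eq_iff]
    have := h2 k
    have := inv_lt_one_of_one_lt₀ (h4 k)
    exact ⟨(h3 k).le, by linarith⟩
  have h6 : ∀ k, (fract (y k))⁻¹ = y (k + 1) := fun k => by
    unfold Int.fract
    rw [h5, h2, inv_inv]
  have h7 : ∀ k, cq (y 0) k = y k := fun k => by
    induction k with
    | zero => rfl
    | succ k ih => rw [cq_succ', ih, h6]
  refine ⟨y 0, ?_, fun k => by rw [h7, h5]⟩
  have key : ∀ d : ℕ, ∀ k, ∀ r : ℚ, (r : ℝ) = y k → r.den ≤ d → False := by
    intro d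
    induction d with
    | zero => intro k r _ hr; have := r.den_pos; omega
    | succ d ih =>
      intro k r hr hd
      have e5 : (((fract r)⁻¹ : ℚ) : ℝ) = y (k + 1) := by
        rw [Rat.cast_inv, Rat.cast_fract, hr, h6]
      have e6 : fract r ≠ 0 := by
        intro h
        rw [h] at e5
        have := h4 k
        simp at e5
        linarith
      exact ih (k + 1) _ e5 (by have := den_next_lt e6; omega)
  rintro ⟨r, hr⟩
  exact key r.den 0 r hr le_rfl

/-- the adaptive recursion -/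
def st (A : ℕ → ℤ → ℤ → ℤ) (a0 a1 : ℤ) : ℕ → (ℤ × ℤ) × (ℤ × ℤ)
  | 0 => ((a0, 1), (a0 * a1 + 1, a1))
  | j + 1 => ((st A a0 a1 j).2,
      (A j (st A a0 a1 j).2.1 (st A a0 a1 j).2.2 * (st A a0 a1 j).2.1 + (st A a0 a1 j).1.1,
       A j (st A a0 a1 j).2.1 (st A a0 a1 j).2.2 * (st A a0 a1 j).2.2 + (st A a0 a1 j).1.2))

lemma exists_adaptive (A : ℕ → ℤ → ℤ → ℤ) (hA : ∀ j p q, 1 ≤ A j p q) (a0 a1 : ℤ) (h1 : 1 ≤ a1) :
    ∃ ξ : ℝ, Irrational ξ ∧ ⌊cq ξ 0⌋ = a0 ∧ ⌊cq ξ 1⌋ = a1 ∧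
      ∀ j, ⌊cq ξ (j + 2)⌋ = A j (P ξ (j + 1)) (Q ξ (j + 1)) := by
  let a : ℕ → ℤ := fun k => Nat.casesOn k a0 fun k => Nat.casesOn k a1 fun j =>
    A j (st A a0 a1 j).2.1 (st A a0 a1 j).2.2
  obtain ⟨ξ, hi, hξ⟩ := exists_digits a fun k => by
    cases k with
    | zero => exact h1
    | succ k => exact hA _ _ _
  have key : ∀ j, st A a0 a1 j = ((P ξ j, Q ξ j), (P ξ (j + 1), Q ξ (j + 1))) := by
    intro j
    induction j with
    | zero =>
      have e0 : ⌊ξ⌋ = a0 := hξ 0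
      have e1 : ⌊(fract ξ)⁻¹⌋ = a1 := hξ 1
      simp [st, P_succ, Q_succ, e0, e1]
    | succ j ih =>
      have e := hξ (j + 2)
      simp only [a, ih] at e
      rw [st, ih, (back j ξ).1, (back j ξ).2, e]
  refine ⟨ξ, hi, hξ 0, hξ 1, fun j => ?_⟩
  have e := hξ (j + 2)
  simp only [a, key] at e
  exact e

lemma PQ_congr {ξ η : ℝ} (N : ℕ) (h : ∀ k ≤ N + 1, ⌊cq ξ k⌋ = ⌊cq η k⌋) :
    ∀ j ≤ N, (P ξ j = P η j ∧ Q ξ j = Q η j) ∧
      P ξ (j + 1) = P η (j + 1) ∧ Q ξ (j + 1) = Q η (j + 1) := by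
  intro j
  induction j with
  | zero =>
    intro _
    have e0 : ⌊ξ⌋ = ⌊η⌋ := h 0 (by omega)
    have e1 : ⌊(fract ξ)⁻¹⌋ = ⌊(fract η)⁻¹⌋ := h 1 (by omega)
    simp [P_succ, Q_succ, e0, e1]
  | succ j ih =>
    intro hj
    obtain ⟨h1, h2⟩ := ih (by omega)
    refine ⟨h2, ?_⟩
    rw [(back j ξ).1, (back j ξ).2, (back j η).1, (back j η).2, h (j + 2) (by omega), h1.1, h1.2,
      h2.1, h2.2]
    exact ⟨rfl, rfl⟩

/-- near any irrational there are irrationals whose late digits follow a prescribed rule -/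
lemma exists_near (A : ℕ → ℤ → ℤ → ℤ) (hA : ∀ j p q, 1 ≤ A j p q) {η : ℝ} (hη : Irrational η)
    (N : ℕ) : ∃ ξ : ℝ, Irrational ξ ∧ |ξ - η| * (N + 1) ≤ 2 ∧
      ∀ j ≥ N, ⌊cq ξ (j + 2)⌋ = A j (P ξ (j + 1)) (Q ξ (j + 1)) := by
  obtain ⟨ξ, hi, h0, h1, h2⟩ := exists_adaptive
    (fun j p q => if j < N then ⌊cq η (j + 2)⌋ else A j p q)
    (fun j p q => by
      split_ifs
      · exact one_le_floor_cq hη _
      · exact hA _ _ _) ⌊cq η 0⌋ ⌊cq η 1⌋ (one_le_floor_cq hη 0)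
  refine ⟨ξ, hi, ?_, fun j hj => by rw [h2, if_neg (by omega)]⟩
  obtain ⟨⟨e1, e2⟩, -, e4⟩ := PQ_congr (ξ := ξ) (η := η) N (fun k hk => by
    rcases k with _ | _ | k
    · exact h0
    · exact h1
    · rw [h2, if_pos (by omega)]) N le_rfl
  have a1 := E_le hi N
  have a2 := E_le hη N
  rw [← abs_err hi, e1, e2, e4] at a1
  rw [← abs_err hη] at a2
  have b1 : (1 : ℝ) ≤ Q η N := by exact_mod_cast one_le_Q hη N
  have b2 : ((N : ℝ) + 1) ≤ Q η (N + 1) := by exact_mod_cast le_Q hη (N + 1)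
  have b3 : |ξ - η| ≤ |Q η N * ξ - P η N| + |Q η N * η - P η N| := by
    calc |ξ - η| ≤ Q η N * |ξ - η| := le_mul_of_one_le_left (abs_nonneg _) b1
      _ = |(Q η N * ξ - P η N) - (Q η N * η - P η N)| := by
        rw [← abs_of_pos (by linarith : (0 : ℝ) < Q η N), ← abs_mul, abs_of_pos (by linarith : (0 : ℝ) < Q η N)]
        congr 1; ring
      _ ≤ _ := abs_sub _ _
  calc _ ≤ (|Q η N * ξ - P η N| + |Q η N * η - P η N|) * Q η (N + 1) := by gcongr
    _ ≤ 2 := by linarith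

end Pool.Agent.Lib.MP_606be1_nt
end

-- part Pool.Agent.Lib.MP_606be1_nt.Sharp
section

/-! Sharpness of the tower condition. -/

namespace Pool.Agent.Lib.MP_606be1_nt

open Real Set Filter Asymptotics

lemma ev_exp {a : ℝ} (ha : 0 < a) {D c : ℝ} (hD : 0 < D) (hc : 0 < c) :
    ∃ Y : ℕ, ∀ y : ℝ, Y ≤ y → D * y * exp (c * √y) ≤ exp (y * a) := by
  obtain ⟨Y, hY⟩ := exists_nat_gt (max (8 * D / a ^ 2) ((2 * c / a) ^ 2))
  refine ⟨Y, fun y hy => ?_⟩
  have h1 : 8 * D / a ^ 2 < y := ((le_max_left _ _).trans_lt hY).trans_le hy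
  have h2 : (2 * c / a) ^ 2 < y := ((le_max_right _ _).trans_lt hY).trans_le hy
  have y0 : 0 < y := lt_trans (by positivity) h1
  have h3 : 2 * c / a ≤ √y := le_sqrt_of_sq_le h2.le
  rw [div_le_iff₀ ha] at h3
  rw [div_lt_iff₀ (by positivity)] at h1
  have h4 : c * √y ≤ y * a / 2 := by
    have := mul_self_sqrt y0.le
    nlinarith [sqrt_nonneg y]
  have h5 : D * y ≤ exp (y * a / 2) := by
    have := quadratic_le_exp_of_nonneg (x := y * a / 2) (by positivity)
    have : 0 ≤ y * a / 2 := by positivity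
    nlinarith
  calc _ ≤ exp (y * a / 2) * exp (y * a / 2) := by gcongr
    _ = _ := by rw [← exp_add]; ring_nf

lemma ev_tower {α D : ℝ} (hα : 1 < α) (_hD : 1 ≤ D) :
    ∃ Y : ℕ, ∀ n : ℕ, Y ≤ n → D * α ^ n ≤ 2 ^ 2 ^ n := by
  obtain ⟨K, hK⟩ := pow_unbounded_of_one_lt (max D α) (by norm_num : (1 : ℝ) < 2)
  have h1 := isLittleO_iff.1 (isLittleO_pow_const_const_pow_of_one_lt (R := ℝ) 1
    (by norm_num : (1 : ℝ) < 2)) (c := 1 / (2 * K + 1)) (by positivity)
  obtain ⟨Y, hY⟩ := eventually_atTop.1 h1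
  refine ⟨Y + 1, fun n hn => ?_⟩
  have h2 := hY n (by omega)
  rw [pow_one, Real.norm_natCast, Real.norm_eq_abs, abs_of_pos (by positivity), one_div,
    inv_mul_eq_div, le_div_iff₀ (by positivity)] at h2
  have h3 : n * (2 * K + 1) ≤ 2 ^ n := by exact_mod_cast h2
  have h4 : K + K * n ≤ 2 ^ n := by nlinarith [(by omega : 1 ≤ n)]
  calc D * α ^ n ≤ 2 ^ K * (2 ^ K) ^ n := by
        gcongr
        · exact (le_max_left _ _).trans hK.le
        · exact (le_max_right _ _).trans hK.le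
    _ = 2 ^ (K + K * n) := by rw [← pow_mul, ← pow_add]
    _ ≤ _ := pow_le_pow_right₀ (by norm_num) h4

lemma pow_cmp {α β : ℝ} (hα : 1 < α) (hβ : 1 < β) (hi : Irrational (log α / log β)) (j : ℕ) :
    α ^ q α β j ≤ β * β ^ pp α β j ∧ β ^ pp α β j ≤ β * α ^ q α β j := by
  have hb := log_pos hβ
  have e1 : |(q α β j : ℝ) * (log α / log β) - pp α β j| = E (log α / log β) j := by
    rw [q_cast' hi, pp_cast' hα hβ hi, abs_err hi]
  have e2 := E_le hi j
  have e3 := E_pos j _ hi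
  have e4 : (1 : ℝ) ≤ Q (log α / log β) (j + 1) := by exact_mod_cast one_le_Q hi (j + 1)
  have e5 : |(q α β j : ℝ) * log α - pp α β j * log β| ≤ log β := by
    rw [lin_eq hβ, e1]
    exact mul_le_of_le_one_right hb.le (by nlinarith)
  obtain ⟨e6, e7⟩ := abs_le.1 e5
  rw [pow_eq_exp hα, pow_eq_exp hβ]
  constructor
  · calc _ ≤ exp (log β + pp α β j * log β) := exp_le_exp.2 (by linarith)
      _ = _ := by rw [exp_add, exp_log (by linarith)]
  · calc _ ≤ exp (log β + q α β j * log α) := exp_le_exp.2 (by linarith)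
      _ = _ := by rw [exp_add, exp_log (by linarith)]

lemma exists_alpha {β : ℝ} (hβ : 1 < β) (X : ℕ → ℝ) (hX : ∀ j, 0 < X j) {u v : ℝ} (hu : 1 ≤ u)
    (huv : u < v) : ∃ α ∈ Ioo u v, Irrational (log α / log β) ∧ ∃ N : ℕ, ∀ j ≥ N,
      β ^ pp α β j ≤ X j * q α β (j + 1) ∧
        X j * q α β (j + 1) ≤ β ^ pp α β j + 2 * q α β j * X j := by
  have hb := log_pos hβ
  have huv' : log u / log β < log v / log β := by gcongr
  set d := (log v / log β - log u / log β) / 3 with hd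
  have d0 : 0 < d := by rw [hd]; linarith
  obtain ⟨η, hη, h1, h2⟩ := exists_irrational_btwn
    (show log u / log β + d < log v / log β - d by rw [hd]; linarith)
  obtain ⟨N, hN⟩ := exists_nat_gt (2 / d)
  obtain ⟨ξ, hi, h3, h4⟩ := exists_near
    (fun j p q => max 1 ⌈exp (p * log β) / (X (j + 1) * q)⌉) (fun _ _ _ => le_max_left _ _) hη N
  have h5 : |ξ - η| < d := by
    rw [div_lt_iff₀ d0] at hN
    by_contra hh
    have : d * (N + 1) ≤ |ξ - η| * (N + 1) := by gcongr; exact not_lt.1 hh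
    linarith
  obtain ⟨h6, h7⟩ := abs_lt.1 h5
  have h8 : log u < ξ * log β := by rw [← div_lt_iff₀ hb]; linarith
  have h9 : ξ * log β < log v := by rw [← lt_div_iff₀ hb]; linarith
  have hξ : log (exp (ξ * log β)) / log β = ξ := by rw [log_exp]; field_simp
  have hmem : exp (ξ * log β) ∈ Ioo u v :=
    ⟨(log_lt_iff_lt_exp (by linarith)).1 h8, (lt_log_iff_exp_lt (by linarith)).1 h9⟩
  set α := exp (ξ * log β) with hαdef
  have hα : 1 < α := hu.trans_lt hmem.1
  have hi' : Irrational (log α / log β) := by rwa [hξ]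
  refine ⟨α, hmem, hi', N + 1, fun j hj => ?_⟩
  obtain ⟨j, rfl⟩ : ∃ i, j = i + 1 := ⟨j - 1, by omega⟩
  have e1 := (back j ξ).2
  rw [h4 j (by omega)] at e1
  rw [pow_eq_exp hβ, q_cast' hi', q_cast' hi', pp_cast' hα hβ hi', hξ, e1]
  have q1 : (1 : ℝ) ≤ Q ξ (j + 1) := by exact_mod_cast one_le_Q hi (j + 1)
  have q0 : (1 : ℝ) ≤ Q ξ j := by exact_mod_cast one_le_Q hi j
  have q01 : (Q ξ j : ℝ) ≤ Q ξ (j + 1) := by exact_mod_cast Q_succ_ge hi j
  have x0 := hX (j + 1)
  set B := exp (P ξ (j + 1) * log β) with hB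
  have B0 : 0 < B := exp_pos _
  set t := B / (X (j + 1) * Q ξ (j + 1)) with ht
  have t0 : 0 < t := by positivity
  have t1 : t * (X (j + 1) * Q ξ (j + 1)) = B := by rw [ht]; field_simp
  have t2 : max 1 ⌈t⌉ = ⌈t⌉ := max_eq_right (Int.ceil_pos.2 t0)
  rw [t2]
  push_cast
  have t3 := Int.le_ceil t
  have t4 := (Int.ceil_lt_add_one t).le
  have t5 : 0 < X (j + 1) * Q ξ (j + 1) := by positivity
  constructor
  · have : t * (X (j + 1) * Q ξ (j + 1)) ≤ ⌈t⌉ * (X (j + 1) * Q ξ (j + 1)) := by gcongr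
    nlinarith
  · have : ⌈t⌉ * (X (j + 1) * Q ξ (j + 1)) ≤ (t + 1) * (X (j + 1) * Q ξ (j + 1)) := by gcongr
    have : X (j + 1) * Q ξ j ≤ X (j + 1) * Q ξ (j + 1) := by gcongr
    nlinarith

theorem sharp {β : ℝ} (hβ : 1 < β) (c : ℝ) {u v : ℝ} (hu : 1 ≤ u) (huv : u < v) :
    ∃ α ∈ Ioo u v, (∀ i j : ℤ, α ^ i = β ^ j → i = 0 ∧ j = 0) ∧ (∀ x, (T α β x).Finite) ∧
      (∃ K : ℕ, ∀ k ≥ K, ∀ n m : ℕ, tw k ≤ n → exp (c * √k) ≤ |α ^ n - β ^ m|) ∧
      ¬ IsEquivalent atTop (fun x : ℝ => ((T α β x).ncard : ℝ))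
        (fun x => log x ^ 2 / (log α * log β)) := by
  have hb := log_pos hβ
  set c' := 2 * (|c| + 1) with hc'
  have c0 : 0 < c' := by positivity
  set X : ℕ → ℝ := fun j => exp (c' * √j) with hX
  have X0 : ∀ j, 0 < X j := fun j => exp_pos _
  have X1 : ∀ j, 1 ≤ X j := fun j => one_le_exp (by positivity)
  have Xm : Monotone X := fun i j h => by
    simp only [hX]
    gcongr
  obtain ⟨α, hmem, hi, N, hN⟩ := exists_alpha hβ X X0 hu huv
  have hα : 1 < α := hu.trans_lt hmem.1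
  have ha := log_pos hα
  obtain ⟨Y, hY⟩ := ev_exp ha (D := 2 * β) (by positivity) c0
  obtain ⟨Y', hY'⟩ := ev_tower hα (D := 2 * β) (by linarith)
  set N1 := N + Y + Y' with hN1
  have F4 : ∀ j ≥ N1, 2 * q α β j * X j ≤ β ^ pp α β j := by
    intro j hj
    have h1 : (j : ℝ) ≤ q α β j := by exact_mod_cast le_q hi j
    have h2 : (Y : ℝ) ≤ j := by exact_mod_cast (by omega : Y ≤ j)
    have h3 := hY (q α β j) (h2.trans h1)
    rw [← pow_eq_exp hα] at h3
    have h4 : X j ≤ exp (c' * √(q α β j)) := by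
      simp only [hX]
      gcongr
    have h5 := (pow_cmp hα hβ hi j).1
    have h6 : 2 * β * q α β j * X j ≤ 2 * β * q α β j * exp (c' * √(q α β j)) := by gcongr
    refine le_of_mul_le_mul_left (a := β) ?_ (by linarith)
    linarith
  have F4' : ∀ j ≥ N1, X j * q α β (j + 1) ≤ 2 * β ^ pp α β j := fun j hj => by
    linarith [(hN j (by omega)).2, F4 j hj]
  have hJ : ∀ x, (J α β x).Finite := by
    intro x
    obtain ⟨k, hk⟩ := exists_nat_gt ((log (2 * β * max x 1) / c') ^ 2)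
    refine (finite_lt_nat (N1 + k)).subset fun j hj => ?_
    by_contra hh
    have hh : N1 + k ≤ j := not_lt.1 hh
    have h1 : α ^ q α β j ≤ x * q α β (j + 1) := hj
    have h2 := (pow_cmp hα hβ hi j).2
    have h3 := F4' j (by omega)
    have h4 : (0 : ℝ) < q α β (j + 1) := by exact_mod_cast Rat.den_pos _
    have h5 : X j ≤ 2 * β * max x 1 := by
      refine le_of_mul_le_mul_right ?_ h4
      have : x * q α β (j + 1) ≤ max x 1 * q α β (j + 1) := by gcongr; exact le_max_left _ _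
      have : β * α ^ q α β j ≤ β * (max x 1 * q α β (j + 1)) := by gcongr; linarith
      linarith
    have h6 : c' * √k ≤ log (2 * β * max x 1) := by
      rw [le_log_iff_exp_le (by positivity)]
      exact (Xm (by omega : k ≤ j)).trans h5
    rw [← le_div_iff₀' c0] at h6
    have h7 : √k ^ 2 ≤ (log (2 * β * max x 1) / c') ^ 2 := by gcongr
    rw [sq_sqrt (Nat.cast_nonneg k)] at h7
    linarith
  refine ⟨α, hmem, fun i j hij => ?_, fun x => ?_, ?_, ?_⟩
  · have h1 : i * log α = j * log β := by rw [← log_zpow, ← log_zpow, hij]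
    have h2 : i = 0 := by
      by_contra h
      have h' : (i : ℝ) ≠ 0 := by exact_mod_cast h
      refine hi ⟨(j : ℚ) / i, ?_⟩
      push_cast
      field_simp
      linarith
    subst h2
    refine ⟨rfl, ?_⟩
    have : (j : ℝ) * log β = 0 := by simpa using h1.symm
    exact_mod_cast (mul_eq_zero.1 this).resolve_right hb.ne'
  · obtain ⟨C, -, hC⟩ := upper hα hβ hi hJ
    exact (hC (max x 1) (le_max_right _ _)).1.subset (T_mono (le_max_left _ _))
  · set c1 := min (log β) 1 / (8 * β) with hc1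
    have m0 : 0 < min (log β) 1 := lt_min hb one_pos
    have c10 : 0 < c1 := by positivity
    have F5 : ∀ j ≥ N1, ∀ n m : ℕ, q α β j ≤ n → n < q α β (j + 1) →
        c1 * X j ≤ |α ^ n - β ^ m| := by
      intro j hj n m h1 h2
      set x := |α ^ n - β ^ m| with hx
      have x0 : 0 ≤ x := abs_nonneg _
      have q0 : 1 ≤ q α β j := Rat.den_pos _
      have q0' : (1 : ℝ) ≤ q α β j := by exact_mod_cast q0
      have e1 : α ^ q α β j ≤ α ^ n := pow_le_pow_right₀ hα.le h1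
      have e2 := (pow_cmp hα hβ hi j).2
      have e3 := F4 j hj
      have e4 := F4' j hj
      have e5 := X0 j
      have e6 : β * α ^ q α β j ≤ β * α ^ n := by gcongr
      rw [hc1, div_mul_eq_mul_div, div_le_iff₀ (by positivity)]
      rcases le_total (α ^ n) (2 * x) with hn | hn
      · have e7 : min (log β) 1 * X j ≤ 1 * X j := by gcongr; exact min_le_right _ _
        have e8 : 1 * X j ≤ q α β j * X j := by gcongr
        have e9 : β * α ^ n ≤ β * (2 * x) := by gcongr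
        have : 0 ≤ β * x := by positivity
        linarith
      · have e7 := approx_of_mem hα hβ (x := x) (n := n) (m := m) (le_refl x) hn
        have e8 := (best hi j (n := n) (m := m) (by omega) (by rw [← q_cast hi]; omega)).1
        have e8' : E (log α / log β) j ≤ |(n : ℝ) * (log α / log β) - m| := by exact_mod_cast e8
        have e9 := le_E hi j
        rw [← q_cast' hi] at e9
        set δ := |(n : ℝ) * (log α / log β) - m| with hδ
        have δ0 : 0 ≤ δ := abs_nonneg _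
        have h4 : (0 : ℝ) < q α β (j + 1) := by exact_mod_cast Rat.den_pos _
        have f1 : 1 ≤ 2 * (q α β (j + 1) * δ) := e9.trans (by gcongr)
        have f2 : min (log β) 1 * X j ≤ log β * X j := by gcongr; exact min_le_left _ _
        have f3 : log β * X j * 1 ≤ log β * X j * (2 * (q α β (j + 1) * δ)) := by gcongr
        have f4 : X j * q α β (j + 1) * (log β * δ) ≤ 2 * (β * α ^ n) * (log β * δ) :=
          mul_le_mul_of_nonneg_right (by linarith) (by positivity)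
        have f5 : β * (α ^ n / 2 * (log β * δ)) ≤ β * x := by gcongr
        linarith
    have F6 : ∀ i, q α β (N1 + i) ≤ tw (q α β N1 + 2 * i) := by
      intro i
      induction i with
      | zero => exact le_tw _
      | succ i ih =>
        have h1 := F4' (N1 + i) (by omega)
        have h2 := (pow_cmp hα hβ hi (N1 + i)).2
        have h3 := hY' (q α β (N1 + i)) (by have := le_q hi (N1 + i); omega)
        have h4 : 1 * (q α β (N1 + i + 1) : ℝ) ≤ X (N1 + i) * q α β (N1 + i + 1) := by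
          gcongr; exact X1 _
        have h5 : (q α β (N1 + i + 1) : ℝ) ≤ 2 ^ 2 ^ q α β (N1 + i) := by linarith
        have h6 : q α β (N1 + i + 1) ≤ 2 ^ 2 ^ q α β (N1 + i) := by exact_mod_cast h5
        refine h6.trans ?_
        change _ ≤ 2 ^ 2 ^ tw (q α β N1 + 2 * i)
        gcongr <;> norm_num
    obtain ⟨k0, hk0⟩ := exists_nat_gt (log (1 / c1) ^ 2)
    refine ⟨2 * q α β N1 + 4 + k0, fun k hk n m hn => ?_⟩
    have hk1 := le_tw k
    obtain ⟨j, hj1, hj2⟩ := exists_index hi (n := n) (by omega)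
    rw [← q_cast hi] at hj1 hj2
    have hj1 : q α β j ≤ n := by exact_mod_cast hj1
    have hj2 : n < q α β (j + 1) := by exact_mod_cast hj2
    have hj3 : N1 ≤ j := by
      by_contra hh
      have := q_mono hi (show j + 1 ≤ N1 by omega)
      omega
    have hj4 : k ≤ 4 * j := by
      have h1 := F6 (j + 1 - N1)
      rw [show N1 + (j + 1 - N1) = j + 1 by omega] at h1
      have h2 : k < q α β N1 + 2 * (j + 1 - N1) := tw_strictMono.lt_iff_lt.1 (by omega)
      omega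
    refine le_trans ?_ (F5 j hj3 n m hj1 hj2)
    have h1 : √k ≤ 2 * √j := by
      have : (k : ℝ) ≤ 4 * j := by exact_mod_cast hj4
      calc √k ≤ √(4 * j) := sqrt_le_sqrt this
        _ = 2 * √j := by
          rw [sqrt_mul (by norm_num), show (4 : ℝ) = 2 ^ 2 by norm_num, sqrt_sq (by norm_num)]
    have h2 : log (1 / c1) ≤ √k := by
      have : (k0 : ℝ) ≤ k := by exact_mod_cast (by omega : k0 ≤ k)
      exact le_sqrt_of_sq_le (by linarith)
    have h3 : c * √k ≤ |c| * √k := by gcongr; exact le_abs_self c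
    have h4 : (|c| + 1) * √k ≤ (|c| + 1) * (2 * √j) := by gcongr
    rw [one_div, log_inv] at h2
    simp only [hX]
    rw [← exp_log c10, ← exp_add]
    exact exp_le_exp.2 (by rw [hc']; linarith)
  · rw [criterion hα hβ]
    rintro ⟨-, h⟩
    have h1 := isLittleO_iff.1 h (c := 1 / (4 * c' ^ 2)) (by positivity)
    obtain ⟨x0, hx0⟩ := eventually_atTop.1 h1
    obtain ⟨i, hi0⟩ := exists_nat_gt
      (max ((x0 / c') ^ 2) (2 * N + log β ^ 2 / c' ^ 2))
    have i1 : x0 / c' ≤ √i := le_sqrt_of_sq_le ((le_max_left _ _).trans hi0.le)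
    have i2 : 2 * N + log β ^ 2 / c' ^ 2 < i := (le_max_right _ _).trans_lt hi0
    rw [div_le_iff₀' c0] at i1
    have h2 : x0 ≤ β * X i := by
      have := add_one_le_exp (c' * √i)
      have e : 1 * X i ≤ β * X i := by gcongr
      simp only [hX] at e ⊢
      linarith
    have h3 := hx0 _ h2
    have h4 : (Finset.Ico N i : Set ℕ) ⊆ J α β (β * X i) := by
      intro j hj
      obtain ⟨j1, j2⟩ : N ≤ j ∧ j < i := by simpa using hj
      change α ^ q α β j ≤ _
      have e1 := (pow_cmp hα hβ hi j).1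
      have e2 := (hN j j1).1
      have e3 : X j * q α β (j + 1) ≤ X i * q α β (j + 1) := by gcongr; exact Xm j2.le
      have e4 : β * β ^ pp α β j ≤ β * (X i * q α β (j + 1)) := by gcongr; linarith
      linarith
    have h5 := ncard_le_ncard h4 (hJ _)
    rw [ncard_coe_finset, Nat.card_Ico] at h5
    have h6 : (i : ℝ) ≤ (J α β (β * X i)).ncard + N := by exact_mod_cast (by omega)
    rw [Real.norm_natCast, Real.norm_eq_abs, abs_of_nonneg (sq_nonneg _),
      log_mul (by positivity) (X0 i).ne'] at h3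
    simp only [hX, log_exp] at h3 h6
    have h7 : (log β + c' * √i) ^ 2 ≤ 2 * log β ^ 2 + 2 * c' ^ 2 * i := by
      have := sq_sqrt (Nat.cast_nonneg (α := ℝ) i)
      nlinarith [sq_nonneg (log β - c' * √i)]
    have h8 : 1 / (4 * c' ^ 2) * (log β + c' * √i) ^ 2
        ≤ 1 / (4 * c' ^ 2) * (2 * log β ^ 2 + 2 * c' ^ 2 * i) := by gcongr
    have h9 : 1 / (4 * c' ^ 2) * (2 * log β ^ 2 + 2 * c' ^ 2 * i)
        = log β ^ 2 / c' ^ 2 / 2 + i / 2 := by field_simp; ring
    linarith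

end Pool.Agent.Lib.MP_606be1_nt
end
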